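import Pool.Agent.TH591.TT.FinS

/-!
# Matrices on the edges of a graph: the action of the gauge group
-/

set_option autoImplicit false

namespace Pool.Agent.W5h90.GI

open MeasureTheory Set Matrix
open scoped ENNReal InnerProductSpace
open Pool.Agent.TH591.TT

/-- `b` edges and `p` vertices; `hd e` is the head of the edge `e`, `tl e` its tail (if any) -/
structure Gph (p b : ℕ) where
  hd : Fin b → Fin p
  tl : Fin b → Option (Fin p)

/-- a matrix for each edge -/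
abbrev W (b N : ℕ) : Type := V (Ix b 0 N)

section rep

variable {p b N : ℕ}

/-- `γ` extended by `1` to `none` -/
def ex (γ : Fin p → Matrix (Fin N) (Fin N) ℝ) (o : Option (Fin p)) : Matrix (Fin N) (Fin N) ℝ :=
  o.elim 1 γ

theorem ex_none (γ : Fin p → Matrix (Fin N) (Fin N) ℝ) : ex γ none = 1 := rfl

theorem ex_some (γ : Fin p → Matrix (Fin N) (Fin N) ℝ) (v : Fin p) : ex γ (some v) = γ v := rfl

/-- all matrices are rotations -/
def IsG (γ : Fin p → Matrix (Fin N) (Fin N) ℝ) : Prop := ∀ v, IsSO (γ v)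

theorem IsG.ex {γ : Fin p → Matrix (Fin N) (Fin N) ℝ} (h : IsG γ) (o : Option (Fin p)) :
    IsSO (ex γ o) := by
  rcases o with _ | v
  · exact IsSO.one
  · exact h v

theorem IsG.tp {γ : Fin p → Matrix (Fin N) (Fin N) ℝ} (h : IsG γ) : IsG (fun v => (γ v)ᵀ) :=
  fun v => (h v).tp

theorem ex_mul (γ δ : Fin p → Matrix (Fin N) (Fin N) ℝ) (o : Option (Fin p)) :
    ex (fun v => γ v * δ v) o = ex γ o * ex δ o := by
  rcases o with _ | v
  · simp [ex]
  · rfl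

theorem ex_tp (γ : Fin p → Matrix (Fin N) (Fin N) ℝ) (o : Option (Fin p)) :
    ex (fun v => (γ v)ᵀ) o = (ex γ o)ᵀ := by
  rcases o with _ | v
  · simp [ex]
  · rfl

theorem ext_W {x y : W b N} (h : ∀ e, mt e x = mt e y) : x = y := by
  refine ext_mv h ?_
  ext a i
  exact i.elim0

theorem hs_vt (x y : W b N) : hs (vt x) (vt y) = 0 := by
  simp [hs]

theorem inner_W (x y : W b N) : ⟪x, y⟫_ℝ = ∑ e, hs (mt e x) (mt e y) := by
  rw [inner_mv, hs_vt, add_zero]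

theorem norm_W (x : W b N) : ‖x‖ ^ 2 = ∑ e, hs (mt e x) (mt e x) := by
  rw [norm_mv, hs_vt, add_zero]

/-- the action of the gauge group: `X_e ↦ γ_{hd e} X_e γ_{tl e}ᵀ` -/
def GR (Γ : Gph p b) (γ : Fin p → Matrix (Fin N) (Fin N) ℝ) : W b N →ₗ[ℝ] W b N where
  toFun x := mk (fun e => γ (Γ.hd e) * mt e x * (ex γ (Γ.tl e))ᵀ) 0
  map_add' x y := by
    refine ext_W fun e => ?_
    rw [mt_mk, map_add, map_add, mt_mk, mt_mk, Matrix.mul_add, Matrix.add_mul]
  map_smul' c x := by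
    refine ext_W fun e => ?_
    rw [mt_mk, map_smul, RingHom.id_apply, map_smul, mt_mk, Matrix.mul_smul, Matrix.smul_mul]

theorem mt_GR (Γ : Gph p b) (γ : Fin p → Matrix (Fin N) (Fin N) ℝ) (x : W b N) (e : Fin b) :
    mt e (GR Γ γ x) = γ (Γ.hd e) * mt e x * (ex γ (Γ.tl e))ᵀ := rfl

theorem GR_GR (Γ : Gph p b) (γ δ : Fin p → Matrix (Fin N) (Fin N) ℝ) (x : W b N) :
    GR Γ γ (GR Γ δ x) = GR Γ (fun v => γ v * δ v) x := by
  refine ext_W fun e => ?_
  rw [mt_GR, mt_GR, mt_GR, ex_mul, Matrix.transpose_mul]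
  simp only [Matrix.mul_assoc]

theorem GR_one (Γ : Gph p b) (γ : Fin p → Matrix (Fin N) (Fin N) ℝ) (hγ : ∀ v, γ v = 1)
    (x : W b N) : GR Γ γ x = x := by
  refine ext_W fun e => ?_
  have h1 : ex γ (Γ.tl e) = 1 := by
    rcases Γ.tl e with _ | v
    · rfl
    · exact hγ v
  rw [mt_GR, hγ, h1, Matrix.transpose_one, Matrix.one_mul, Matrix.mul_one]

theorem GR_tp1 (Γ : Gph p b) {γ : Fin p → Matrix (Fin N) (Fin N) ℝ} (hγ : IsG γ) (x : W b N) :
    GR Γ (fun v => (γ v)ᵀ) (GR Γ γ x) = x := by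
  rw [GR_GR]
  exact GR_one Γ _ (fun v => orth2 (hγ v).1) x

theorem GR_tp2 (Γ : Gph p b) {γ : Fin p → Matrix (Fin N) (Fin N) ℝ} (hγ : IsG γ) (x : W b N) :
    GR Γ γ (GR Γ (fun v => (γ v)ᵀ) x) = x := by
  rw [GR_GR]
  exact GR_one Γ _ (fun v => orth1 (hγ v).1) x

theorem inner_GR (Γ : Gph p b) {γ : Fin p → Matrix (Fin N) (Fin N) ℝ} (hγ : IsG γ) (x y : W b N) :
    ⟪GR Γ γ x, GR Γ γ y⟫_ℝ = ⟪x, y⟫_ℝ := by
  rw [inner_W, inner_W]
  refine Finset.sum_congr rfl fun e _ => ?_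
  rw [mt_GR, mt_GR, hs_orth_right _ (by
    rw [Matrix.transpose_transpose]
    exact orth2 (hγ.ex _).1), hs_orth_left _ (orth2 (hγ _).1)]

theorem norm_GR (Γ : Gph p b) {γ : Fin p → Matrix (Fin N) (Fin N) ℝ} (hγ : IsG γ) (x : W b N) :
    ‖GR Γ γ x‖ = ‖x‖ := by
  have h1 : ‖GR Γ γ x‖ ^ 2 = ‖x‖ ^ 2 := by
    rw [← real_inner_self_eq_norm_sq, ← real_inner_self_eq_norm_sq, inner_GR Γ hγ]
  exact (sq_eq_sq₀ (norm_nonneg _) (norm_nonneg _)).1 h1

/-- the rotation `g` at the vertex `v` -/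
def up (v : Fin p) (g : Matrix (Fin N) (Fin N) ℝ) : Fin p → Matrix (Fin N) (Fin N) ℝ :=
  fun w => if w = v then g else 1

theorem up_G (v : Fin p) {g : Matrix (Fin N) (Fin N) ℝ} (hg : IsSO g) : IsG (up v g) := by
  intro w
  unfold up
  split_ifs
  · exact hg
  · exact IsSO.one

theorem up_mul (v : Fin p) (g h : Matrix (Fin N) (Fin N) ℝ) (w : Fin p) :
    up v g w * up v h w = up v (g * h) w := by
  unfold up
  split_ifs
  · rfl
  · rw [Matrix.one_mul]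

/-- is `v` the head of `e` -/
def τ (Γ : Gph p b) (e : Fin b) (v : Fin p) : ℝ := if Γ.hd e = v then 1 else 0

/-- is `v` the tail of `e` -/
def σ (Γ : Gph p b) (e : Fin b) (v : Fin p) : ℝ := if Γ.tl e = some v then 1 else 0

theorem τ_sq (Γ : Gph p b) (e : Fin b) (v : Fin p) : τ Γ e v * τ Γ e v = τ Γ e v := by
  unfold τ
  split_ifs <;> norm_num

theorem σ_sq (Γ : Gph p b) (e : Fin b) (v : Fin p) : σ Γ e v * σ Γ e v = σ Γ e v := by
  unfold σ
  split_ifs <;> norm_num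

theorem τ_ne (Γ : Gph p b) (e : Fin b) {v w : Fin p} (h : v ≠ w) : τ Γ e v * τ Γ e w = 0 := by
  unfold τ
  split_ifs with h1 h2
  · exact absurd (h1.symm.trans h2) h
  all_goals norm_num

theorem σ_ne (Γ : Gph p b) (e : Fin b) {v w : Fin p} (h : v ≠ w) : σ Γ e v * σ Γ e w = 0 := by
  unfold σ
  split_ifs with h1 h2
  · exact absurd (Option.some.inj (h1.symm.trans h2)) h
  all_goals norm_num

theorem τ_nonneg (Γ : Gph p b) (e : Fin b) (v : Fin p) : 0 ≤ τ Γ e v := by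
  unfold τ
  split_ifs <;> norm_num

theorem σ_nonneg (Γ : Gph p b) (e : Fin b) (v : Fin p) : 0 ≤ σ Γ e v := by
  unfold σ
  split_ifs <;> norm_num

/-- the infinitesimal action of `K` at the vertex `v` -/
def GD' (Γ : Gph p b) (v : Fin p) (K : Matrix (Fin N) (Fin N) ℝ) : W b N →ₗ[ℝ] W b N where
  toFun x := mk (fun e => τ Γ e v • (K * mt e x) - σ Γ e v • (mt e x * K)) 0
  map_add' x y := by
    refine ext_W fun e => ?_
    rw [mt_mk, map_add, map_add, mt_mk, mt_mk, Matrix.mul_add, Matrix.add_mul, smul_add, smul_add]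
    abel
  map_smul' c x := by
    refine ext_W fun e => ?_
    rw [mt_mk, map_smul, RingHom.id_apply, map_smul, mt_mk, Matrix.mul_smul, Matrix.smul_mul,
      smul_sub, smul_comm c, smul_comm c]

theorem mt_GD' (Γ : Gph p b) (v : Fin p) (K : Matrix (Fin N) (Fin N) ℝ) (x : W b N) (e : Fin b) :
    mt e (GD' Γ v K x) = τ Γ e v • (K * mt e x) - σ Γ e v • (mt e x * K) := rfl

theorem GD'_skew (Γ : Gph p b) (v : Fin p) {K : Matrix (Fin N) (Fin N) ℝ} (hK : Kᵀ = -K)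
    (x y : W b N) : ⟪GD' Γ v K x, y⟫_ℝ = - ⟪x, GD' Γ v K y⟫_ℝ := by
  rw [inner_W, inner_W, ← Finset.sum_neg_distrib]
  refine Finset.sum_congr rfl fun e _ => ?_
  rw [mt_GD', mt_GD', hs_sub_left, hs_sub_right, hs_comm (τ Γ e v • _), hs_comm (σ Γ e v • _),
    hs_smul_right, hs_smul_right, hs_smul_right, hs_smul_right, hs_comm (mt e y), hs_comm (mt e y),
    hs_mul_left, hs_mul_right, hK, Matrix.neg_mul, Matrix.mul_neg, hs_neg_right, hs_neg_right]
  ring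

theorem GD'_add (Γ : Gph p b) (v : Fin p) (K L : Matrix (Fin N) (Fin N) ℝ) (x : W b N) :
    GD' Γ v (K + L) x = GD' Γ v K x + GD' Γ v L x := by
  refine ext_W fun e => ?_
  rw [map_add, mt_GD', mt_GD', mt_GD', Matrix.add_mul, Matrix.mul_add, smul_add, smul_add]
  abel

theorem GD'_smul (Γ : Gph p b) (v : Fin p) (c : ℝ) (K : Matrix (Fin N) (Fin N) ℝ) (x : W b N) :
    GD' Γ v (c • K) x = c • GD' Γ v K x := by
  refine ext_W fun e => ?_
  rw [map_smul, mt_GD', mt_GD', Matrix.smul_mul, Matrix.mul_smul, smul_sub, smul_comm c,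
    smul_comm c]

theorem GD'_zero (Γ : Gph p b) (v : Fin p) (x : W b N) :
    GD' Γ v (0 : Matrix (Fin N) (Fin N) ℝ) x = 0 := by
  have := GD'_smul Γ v 0 (0 : Matrix (Fin N) (Fin N) ℝ) x
  rwa [zero_smul, zero_smul] at this

theorem GD'_sum (Γ : Gph p b) (v : Fin p) {ι : Type} (S : Finset ι) (c : ι → ℝ)
    (K : ι → Matrix (Fin N) (Fin N) ℝ) (x : W b N) :
    GD' Γ v (∑ k ∈ S, c k • K k) x = ∑ k ∈ S, c k • GD' Γ v (K k) x := by
  classical
  induction S using Finset.induction_on with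
  | empty => simp [GD'_zero]
  | insert j t hj ih => rw [Finset.sum_insert hj, Finset.sum_insert hj, GD'_add, ih, GD'_smul]

theorem GD'_comm (Γ : Gph p b) (v : Fin p) (K L : Matrix (Fin N) (Fin N) ℝ) (x : W b N) :
    GD' Γ v K (GD' Γ v L x) - GD' Γ v L (GD' Γ v K x) = GD' Γ v (K * L - L * K) x := by
  refine ext_W fun e => ?_
  rw [map_sub, mt_GD', mt_GD', mt_GD', mt_GD', mt_GD']
  have h1 := τ_sq Γ e v
  have h2 := σ_sq Γ e v
  ext i j
  simp only [Matrix.mul_sub, Matrix.sub_mul, Matrix.mul_assoc, Matrix.mul_smul, Matrix.smul_mul,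
    Matrix.sub_apply, Matrix.smul_apply, smul_eq_mul]
  obtain ⟨a, ha⟩ : ∃ a, a = (K * (L * mt e x)) i j := ⟨_, rfl⟩
  obtain ⟨b', hb⟩ : ∃ a, a = (L * (K * mt e x)) i j := ⟨_, rfl⟩
  obtain ⟨c, hc⟩ : ∃ a, a = (mt e x * (K * L)) i j := ⟨_, rfl⟩
  obtain ⟨d, hd⟩ : ∃ a, a = (mt e x * (L * K)) i j := ⟨_, rfl⟩
  rw [← ha, ← hb, ← hc, ← hd]
  linear_combination (a - b') * h1 - (c - d) * h2

theorem GD'_comm' (Γ : Gph p b) {v w : Fin p} (h : v ≠ w) (K L : Matrix (Fin N) (Fin N) ℝ)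
    (x : W b N) : GD' Γ v K (GD' Γ w L x) - GD' Γ w L (GD' Γ v K x) = 0 := by
  refine ext_W fun e => ?_
  rw [map_sub, mt_GD', mt_GD', mt_GD', mt_GD', map_zero]
  have h1 := τ_ne Γ e h
  have h2 := σ_ne Γ e h
  ext i j
  simp only [Matrix.mul_sub, Matrix.sub_mul, Matrix.mul_assoc, Matrix.mul_smul, Matrix.smul_mul,
    Matrix.sub_apply, Matrix.smul_apply, smul_eq_mul, Matrix.zero_apply]
  linear_combination ((K * (L * mt e x)) i j - (L * (K * mt e x)) i j) * h1 +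
    ((mt e x * (L * K)) i j - (mt e x * (K * L)) i j) * h2

end rep

end Pool.Agent.W5h90.GI
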