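import Pool.Agent.W5h90.GI.A1

/-!
# Matrices on the edges of a graph: the Lie algebra of the gauge group
-/

set_option autoImplicit false

namespace Pool.Agent.W5h90.GI

open MeasureTheory Set Matrix
open scoped ENNReal InnerProductSpace
open Pool.Agent.TH591.TT
open Pool.Agent.H888R2.KC (KI Km ip Km_skew Km_complete Km_parseval)

section alg

/-- the Lie algebra of `SO(N)` -/
theorem alg {N : ℕ} (hN : 3 ≤ N) : ∃ (c : KI N → KI N → KI N → ℝ) (κ0 : ℝ), (N : ℝ) - 2 ≤ κ0 ∧
    (∀ i j k, c j i k = - c i j k) ∧ (∀ i j k, c i k j = - c i j k) ∧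
    (∀ i j, Km ℝ i * Km ℝ j - Km ℝ j * Km ℝ i = ∑ k, c i j k • Km ℝ k) ∧
    (∀ k, ∑ l, (∑ i, ∑ j, c i j k * c i j l) • Km ℝ l = κ0 • Km ℝ k) := by
  have hN3 : (3 : ℝ) ≤ N := by exact_mod_cast hN
  obtain ⟨κ, hκ, hk⟩ := Pool.Agent.H888R2.KC.F5x.kil ℝ N
  refine ⟨Pool.Agent.H888R2.KC.F5x.cc ℝ, κ, hκ, Pool.Agent.H888R2.KC.F5x.cc1,
      Pool.Agent.H888R2.KC.F5x.cc2, ?_, ?_⟩
  · intro i j
    have h1 := Pool.Agent.H888R2.KC.F5x.br_Km (𝕜 := ℝ) i j
    unfold Pool.Agent.H888R2.KC.F5x.br at h1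
    exact h1
  · intro k
    obtain ⟨s, hs⟩ := hk k
    have hs0 : s = 0 := by
      have h1 := congrArg Matrix.trace hs
      rw [Matrix.trace_sum, Matrix.trace_add, Matrix.trace_smul, Matrix.trace_smul, Km_trace,
        Matrix.trace_one, Fintype.card_fin] at h1
      simp only [Matrix.trace_smul, Km_trace, smul_zero, mul_zero, Finset.sum_const_zero, zero_add,
        smul_eq_mul] at h1
      rcases mul_eq_zero.1 h1.symm with h2 | h2
      · exact h2
      · exfalso
        linarith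
    rw [hs0, zero_smul, add_zero] at hs
    exact hs

variable {E : Type} [AddCommGroup E] [Module ℝ E] {p : ℕ} {κ₁ : Type} [Fintype κ₁]

/-- the structure constants of a product -/
noncomputable def sc (c : κ₁ → κ₁ → κ₁ → ℝ) (i j k : Fin p × κ₁) : ℝ :=
  if i.1 = j.1 ∧ j.1 = k.1 then c i.2 j.2 k.2 else 0

theorem sc_sum (c : κ₁ → κ₁ → κ₁ → ℝ) (k l : Fin p × κ₁) :
    ∑ i : Fin p × κ₁, ∑ j : Fin p × κ₁, sc c i j k * sc c i j l =
      if l.1 = k.1 then ∑ i, ∑ j, c i j k.2 * c i j l.2 else 0 := by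
  rw [Fintype.sum_prod_type, Finset.sum_eq_single l.1]
  · by_cases hp : l.1 = k.1
    · rw [if_pos hp]
      refine Finset.sum_congr rfl fun i₂ _ => ?_
      rw [Fintype.sum_prod_type, Finset.sum_eq_single l.1]
      · refine Finset.sum_congr rfl fun j₂ _ => ?_
        simp [sc, hp]
      · intro j _ hj
        refine Finset.sum_eq_zero fun j₂ _ => ?_
        have h1 : sc c (l.1, i₂) (j, j₂) l = 0 := by
          unfold sc
          rw [if_neg]
          intro h
          exact hj h.2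
        rw [h1, mul_zero]
      · intro h
        exact absurd (Finset.mem_univ l.1) h
    · rw [if_neg hp]
      refine Finset.sum_eq_zero fun i₂ _ => Finset.sum_eq_zero fun j _ => ?_
      by_cases hj : l.1 = j.1
      · have h1 : sc c (l.1, i₂) j k = 0 := by
          unfold sc
          rw [if_neg]
          intro h
          exact hp (hj.trans h.2)
        rw [h1, zero_mul]
      · have h1 : sc c (l.1, i₂) j k = 0 := by
          unfold sc
          rw [if_neg]
          intro h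
          exact hj h.1
        rw [h1, zero_mul]
  · intro i _ hi
    refine Finset.sum_eq_zero fun i₂ _ => Finset.sum_eq_zero fun j _ => ?_
    have h1 : sc c (i, i₂) j l = 0 := by
      unfold sc
      rw [if_neg]
      intro h
      exact hi (h.1.trans h.2)
    rw [h1, mul_zero]
  · intro h
    exact absurd (Finset.mem_univ l.1) h

/-- commuting families with the same structure constants form one family -/
theorem prod_fam (A : Fin p → κ₁ → (E →ₗ[ℝ] E)) (c : κ₁ → κ₁ → κ₁ → ℝ)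
    (hc1 : ∀ i j k, c j i k = - c i j k) (hc2 : ∀ i j k, c i k j = - c i j k)
    (hcomm : ∀ v i j x, A v i (A v j x) - A v j (A v i x) = ∑ k, c i j k • A v k x)
    (hcomm' : ∀ v w, v ≠ w → ∀ i j x, A v i (A w j x) - A w j (A v i x) = 0) (κ0 : ℝ)
    (hkil : ∀ v k x, ∑ l, (∑ i, ∑ j, c i j k * c i j l) • A v l x = κ0 • A v k x) :
    ∃ c' : Fin p × κ₁ → Fin p × κ₁ → Fin p × κ₁ → ℝ,
      (∀ i j k, c' j i k = - c' i j k) ∧ (∀ i j k, c' i k j = - c' i j k) ∧
      (∀ i j x, A i.1 i.2 (A j.1 j.2 x) - A j.1 j.2 (A i.1 i.2 x) = ∑ k, c' i j k • A k.1 k.2 x) ∧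
      (∀ k x, ∑ l, (∑ i, ∑ j, c' i j k * c' i j l) • A l.1 l.2 x = κ0 • A k.1 k.2 x) := by
  refine ⟨sc c, ?_, ?_, ?_, ?_⟩
  · intro i j k
    unfold sc
    by_cases h : i.1 = j.1 ∧ j.1 = k.1
    · rw [if_pos h, if_pos ⟨h.1.symm, h.1.trans h.2⟩, hc1]
    · rw [if_neg h, if_neg, neg_zero]
      intro h'
      exact h ⟨h'.1.symm, h'.1.trans h'.2⟩
  · intro i j k
    unfold sc
    by_cases h : i.1 = j.1 ∧ j.1 = k.1
    · rw [if_pos h, if_pos ⟨h.1.trans h.2, h.2.symm⟩, hc2]
    · rw [if_neg h, if_neg, neg_zero]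
      intro h'
      exact h ⟨h'.1.trans h'.2, h'.2.symm⟩
  · intro i j x
    by_cases hij : i.1 = j.1
    · rw [Fintype.sum_prod_type, Finset.sum_eq_single i.1]
      · have h1 : ∀ k₂ : κ₁, sc c i j (i.1, k₂) = c i.2 j.2 k₂ := by
          intro k₂
          unfold sc
          rw [if_pos]
          exact ⟨hij, hij.symm⟩
        simp only [h1]
        rw [← hcomm, hij]
      · intro v _ hv
        refine Finset.sum_eq_zero fun k₂ _ => ?_
        have h1 : sc c i j (v, k₂) = 0 := by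
          unfold sc
          rw [if_neg]
          intro h
          exact hv (h.2.symm.trans h.1.symm)
        rw [h1, zero_smul]
      · intro h
        exact absurd (Finset.mem_univ _) h
    · rw [hcomm' _ _ hij]
      symm
      refine Finset.sum_eq_zero fun k _ => ?_
      have h1 : sc c i j k = 0 := by
        unfold sc
        rw [if_neg]
        intro h
        exact hij h.1
      rw [h1, zero_smul]
  · intro k x
    simp only [sc_sum]
    rw [Fintype.sum_prod_type, Finset.sum_eq_single k.1]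
    · simp only [if_true]
      exact hkil _ _ _
    · intro v _ hv
      refine Finset.sum_eq_zero fun l₂ _ => ?_
      rw [if_neg hv, zero_smul]
    · intro h
      exact absurd (Finset.mem_univ _) h

end alg

section cas

variable {p b N : ℕ}

/-- the edge `e` is a loop -/
def Loop (Γ : Gph p b) (e : Fin b) : Prop := Γ.tl e = some (Γ.hd e)

instance (Γ : Gph p b) (e : Fin b) : Decidable (Loop Γ e) := by
  unfold Loop
  infer_instance

theorem mat_ge (hN : 2 ≤ N) (X : Matrix (Fin N) (Fin N) ℝ) :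
    ((N : ℝ) - 2) / 2 * (hs X X - X.trace ^ 2 / N) ≤
      ((N : ℝ) - 1) * hs X X + hs X Xᵀ - X.trace ^ 2 := by
  have hN2 : (2 : ℝ) ≤ N := by exact_mod_cast hN
  have hN0 : (0 : ℝ) < N := by linarith
  have h4 := tr_le (by omega) X
  have h5 := hs_nonneg X
  obtain ⟨t, ht⟩ : ∃ t : ℝ, t = X.trace ^ 2 / N := ⟨_, rfl⟩
  have ht2 : X.trace ^ 2 = N * t := by rw [ht]; field_simp
  rw [← ht] at h4 ⊢
  rw [ht2]
  have h6 : t ≤ hs X X := by
    have h7 : hs X Xᵀ ≤ hs X X := by
      have h8 := hs_nonneg (X - Xᵀ)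
      rw [hs_sub_left, hs_sub_right, hs_sub_right, hs_tp, hs_comm Xᵀ X] at h8
      linarith
    linarith
  have h7 : 0 ≤ (N : ℝ) - 2 := by linarith
  nlinarith [mul_nonneg h7 (sub_nonneg.2 h6)]

/-- the Casimir operator of the gauge group -/
theorem casG (hN : 2 ≤ N) (Γ : Gph p b) (x : W b N) :
    ((N : ℝ) - 2) / 2 * (‖x‖ ^ 2 - ∑ e, if Loop Γ e then ⟪ee e, x⟫_ℝ ^ 2 else 0) ≤
      ∑ k : Fin p × KI N, ‖GD' Γ k.1 (Km ℝ k.2) x‖ ^ 2 := by
  have hN2 : (2 : ℝ) ≤ N := by exact_mod_cast hN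
  have hN0 : (0 : ℝ) < N := by linarith
  have h1 : ∑ k : Fin p × KI N, ‖GD' Γ k.1 (Km ℝ k.2) x‖ ^ 2 = ∑ e, ∑ v, ∑ k : KI N,
      hs (τ Γ e v • (Km ℝ k * mt e x) - σ Γ e v • (mt e x * Km ℝ k))
        (τ Γ e v • (Km ℝ k * mt e x) - σ Γ e v • (mt e x * Km ℝ k)) := by
    simp only [norm_W, mt_GD']
    rw [Finset.sum_comm]
    refine Finset.sum_congr rfl fun e _ => ?_
    rw [Fintype.sum_prod_type]
  rw [h1, norm_W, ← Finset.sum_sub_distrib, Finset.mul_sum]
  refine Finset.sum_le_sum fun e _ => ?_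
  have h2 := Finset.single_le_sum (f := fun v => ∑ k : KI N,
      hs (τ Γ e v • (Km ℝ k * mt e x) - σ Γ e v • (mt e x * Km ℝ k))
        (τ Γ e v • (Km ℝ k * mt e x) - σ Γ e v • (mt e x * Km ℝ k)))
    (fun v _ => Finset.sum_nonneg fun k _ => hs_nonneg _) (Finset.mem_univ (Γ.hd e))
  refine le_trans ?_ h2
  have h3 : τ Γ e (Γ.hd e) = 1 := by
    unfold τ
    rw [if_pos rfl]
  by_cases hl : Loop Γ e
  · have h4 : σ Γ e (Γ.hd e) = 1 := by
      unfold σ
      exact if_pos hl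
    simp only [h3, h4, one_smul, if_pos hl]
    rw [cas_mat, inner_ee, mul_pow, inv_pow, Real.sq_sqrt hN0.le]
    have h5 := mat_ge hN (mt e x)
    have h6 : (N : ℝ)⁻¹ * (mt e x).trace ^ 2 = (mt e x).trace ^ 2 / N := by
      rw [div_eq_inv_mul]
    rw [h6]
    exact h5
  · have h4 : σ Γ e (Γ.hd e) = 0 := by
      unfold σ
      exact if_neg hl
    simp only [h3, h4, one_smul, zero_smul, sub_zero, if_neg hl]
    rw [cas_vec]
    exact mul_le_mul_of_nonneg_right (by linarith) (hs_nonneg _)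

end cas

end Pool.Agent.W5h90.GI
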