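import Pool.Agent.W5h90.GI.A2

/-!
# Matrices on the edges of a graph: invariant subspaces
-/

set_option autoImplicit false

namespace Pool.Agent.W5h90.GI

open MeasureTheory Set Matrix
open scoped ENNReal InnerProductSpace
open Pool.Agent.TH591.TT
open Pool.Agent.H888R2.KC (KI Km ip Km_skew Km_complete Km_parseval)

section sub

variable {κ : Type} [Fintype κ] {p b N : ℕ} {Γ : Gph p b} {ι : V κ →ₗᵢ[ℝ] W b N}

/-- the range of `ι` is invariant under the gauge group -/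
def InvG (Γ : Gph p b) (ι : V κ →ₗᵢ[ℝ] W b N) : Prop :=
  ∀ γ : Fin p → Matrix (Fin N) (Fin N) ℝ, IsG γ → ∀ x, ∃ y, ι y = GR Γ γ (ι x)

/-- the action on the subspace -/
noncomputable def aG (Γ : Gph p b) (ι : V κ →ₗᵢ[ℝ] W b N)
    (γ : Fin p → Matrix (Fin N) (Fin N) ℝ) : V κ →ₗ[ℝ] V κ :=
  (pj ι).toLinearMap ∘ₗ GR Γ γ ∘ₗ ι.toLinearMap

theorem aG_apply (γ : Fin p → Matrix (Fin N) (Fin N) ℝ) (x : V κ) :
    aG Γ ι γ x = pj ι (GR Γ γ (ι x)) := rfl

theorem ι_aG (hι : InvG Γ ι) {γ : Fin p → Matrix (Fin N) (Fin N) ℝ} (hγ : IsG γ) (x : V κ) :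
    ι (aG Γ ι γ x) = GR Γ γ (ι x) := by
  obtain ⟨y, hy⟩ := hι γ hγ x
  rw [aG_apply, ← hy, pj_ι]

/-- the isometry of `γ` -/
noncomputable def isoG (hι : InvG Γ ι) (γ : Fin p → Matrix (Fin N) (Fin N) ℝ) (hγ : IsG γ) :
    V κ ≃ₗᵢ[ℝ] V κ :=
  { aG Γ ι γ with
    invFun := aG Γ ι (fun v => (γ v)ᵀ)
    left_inv := fun x => by
      show aG Γ ι (fun v => (γ v)ᵀ) (aG Γ ι γ x) = x
      apply ι.injective
      rw [ι_aG hι hγ.tp, ι_aG hι hγ, GR_tp1 Γ hγ]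
    right_inv := fun x => by
      show aG Γ ι γ (aG Γ ι (fun v => (γ v)ᵀ) x) = x
      apply ι.injective
      rw [ι_aG hι hγ, ι_aG hι hγ.tp, GR_tp2 Γ hγ]
    norm_map' := fun x => by
      show ‖aG Γ ι γ x‖ = ‖x‖
      rw [← ι.norm_map (aG Γ ι γ x), ι_aG hι hγ, norm_GR Γ hγ, ι.norm_map] }

theorem isoG_apply (hι : InvG Γ ι) (γ : Fin p → Matrix (Fin N) (Fin N) ℝ) (hγ : IsG γ)
    (x : V κ) : ι (isoG hι γ hγ x) = GR Γ γ (ι x) := ι_aG hι hγ x

/-- the gauge group of the subspace -/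
def GG (Γ : Gph p b) (ι : V κ →ₗᵢ[ℝ] W b N) : Set (V κ ≃ₗᵢ[ℝ] V κ) :=
  {e | ∃ γ : Fin p → Matrix (Fin N) (Fin N) ℝ, IsG γ ∧ ∀ x, ι (e x) = GR Γ γ (ι x)}

theorem isoG_mem (hι : InvG Γ ι) (γ : Fin p → Matrix (Fin N) (Fin N) ℝ) (hγ : IsG γ) :
    isoG hι γ hγ ∈ GG Γ ι := ⟨γ, hγ, isoG_apply hι γ hγ⟩

/-- one parameter groups in the gauge group -/
theorem pathG (Γ : Gph p b) (v : Fin p) (K : Matrix (Fin N) (Fin N) ℝ) (hK : Kᵀ = -K) :
    ∃ U : ℝ → (Fin p → Matrix (Fin N) (Fin N) ℝ), (∀ t, IsG (U t)) ∧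
      (∀ x : W b N, GR Γ (U 0) x = x) ∧
      (∀ s t, U (s + t) = fun w => U s w * U t w) ∧
      ∀ x : W b N, HasDerivAt (fun t => GR Γ (U t) x) (GD' Γ v K x) 0 := by
  obtain ⟨U, hU, h0, hadd, hder⟩ := exp_path K hK
  have hSO : ∀ t, IsSO (U t) := by
    intro t
    refine ⟨hU t, ?_⟩
    have h1 : U t = U (t / 2) * U (t / 2) := by rw [← hadd]; congr 1; ring
    rw [h1, Matrix.det_mul]
    rcases det_or (hU (t / 2)) with h | h <;> rw [h] <;> norm_num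
  have hup0 : ∀ w, up v (U 0) w = 1 := by
    intro w
    unfold up
    rw [h0]
    split_ifs <;> rfl
  refine ⟨fun t => up v (U t), fun t => up_G v (hSO t), fun x => GR_one Γ _ hup0 x, ?_, ?_⟩
  · intro s t
    funext w
    show up v (U (s + t)) w = up v (U s) w * up v (U t) w
    rw [up_mul, hadd]
  · intro x
    have h1 : HasDerivAt (fun t : ℝ => fun q : Ix b 0 N => (GR Γ (up v (U t)) x) q)
        (fun q => (GD' Γ v K x) q) 0 := by
      rw [hasDerivAt_pi]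
      intro q
      rcases q with ⟨e, i, j⟩ | ⟨i, a⟩
      · have hA : ∀ i j, HasDerivAt (fun t => up v (U t) (Γ.hd e) i j)
            ((τ Γ e v • K) i j) 0 := by
          intro i j
          unfold up τ
          split_ifs with h
          · rw [one_smul]
            exact hder i j
          · rw [zero_smul]
            exact hasDerivAt_const _ _
        have hB : ∀ i j, HasDerivAt (fun t => (ex (up v (U t)) (Γ.tl e))ᵀ i j)
            ((σ Γ e v • K)ᵀ i j) 0 := by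
          intro i j
          unfold σ
          rcases hw : Γ.tl e with _ | w
          · simp only [ex_none]
            rw [if_neg (by simp), zero_smul]
            exact hasDerivAt_const _ _
          · simp only [ex_some]
            unfold up
            by_cases h : w = v
            · simp only [h, if_true, one_smul]
              exact hder j i
            · simp only [h, if_false]
              rw [if_neg (by simpa using h), zero_smul]
              exact hasDerivAt_const _ _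
        have e1 := mul_der (fun t => up v (U t) (Γ.hd e)) (fun _ => mt e x) _ 0 hA
          (fun a b => hasDerivAt_const _ _)
        have e2 := mul_der (fun t => up v (U t) (Γ.hd e) * mt e x)
          (fun t => (ex (up v (U t)) (Γ.tl e))ᵀ) _ _ e1 hB i j
        have hex0 : ex (up v (U 0)) (Γ.tl e) = 1 := by
          rcases Γ.tl e with _ | w
          · rfl
          · exact hup0 w
        have e3 : (((τ Γ e v • K) * mt e x + up v (U 0) (Γ.hd e) * 0) *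
            (ex (up v (U 0)) (Γ.tl e))ᵀ + up v (U 0) (Γ.hd e) * mt e x * (σ Γ e v • K)ᵀ) =
            mt e (GD' Γ v K x) := by
          rw [hex0, hup0, mt_GD', Matrix.transpose_smul, hK, Matrix.transpose_one, Matrix.mul_zero,
            add_zero, Matrix.mul_one, Matrix.one_mul, Matrix.smul_mul, Matrix.mul_smul,
            Matrix.mul_neg, smul_neg, sub_eq_add_neg]
        rw [e3] at e2
        exact e2
      · exact i.elim0
    exact ((PiLp.continuousLinearEquiv 2 ℝ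
      (fun _ : Ix b 0 N => ℝ)).symm.hasFDerivAt).comp_hasDerivAt (0 : ℝ) h1

/-- the infinitesimal action on the subspace -/
noncomputable def DG (Γ : Gph p b) (ι : V κ →ₗᵢ[ℝ] W b N) (v : Fin p)
    (K : Matrix (Fin N) (Fin N) ℝ) : V κ →ₗ[ℝ] V κ :=
  (pj ι).toLinearMap ∘ₗ GD' Γ v K ∘ₗ ι.toLinearMap

theorem ι_DG (hι : InvG Γ ι) (v : Fin p) (K : Matrix (Fin N) (Fin N) ℝ) (hK : Kᵀ = -K) (x : V κ) :
    ι (DG Γ ι v K x) = GD' Γ v K (ι x) := by
  obtain ⟨U, hU, h0, hadd, hder⟩ := pathG Γ v K hK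
  have h1 := hder (ι x)
  have h2 : HasDerivAt (fun t => ι (pj ι (GR Γ (U t) (ι x)))) (ι (pj ι (GD' Γ v K (ι x)))) 0 :=
    ((ι.toContinuousLinearMap.comp (pj ι)).hasFDerivAt).comp_hasDerivAt (0 : ℝ) h1
  have h3 : (fun t => ι (pj ι (GR Γ (U t) (ι x)))) = fun t => GR Γ (U t) (ι x) := by
    funext t
    exact ι_aG hι (hU t) x
  rw [h3] at h2
  exact h2.unique h1

/-- the invariant vectors -/
def FX (Γ : Gph p b) (ι : V κ →ₗᵢ[ℝ] W b N) : Submodule ℝ (V κ) where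
  carrier := {x | ∀ γ : Fin p → Matrix (Fin N) (Fin N) ℝ, IsG γ → GR Γ γ (ι x) = ι x}
  add_mem' := by
    intro x y hx hy γ hγ
    rw [map_add, map_add, hx γ hγ, hy γ hγ]
  zero_mem' := by
    intro γ _
    rw [map_zero, map_zero]
  smul_mem' := by
    intro c x hx γ hγ
    rw [map_smul, map_smul, hx γ hγ]

theorem FX_D (x : V κ) (hx : x ∈ FX Γ ι) (v : Fin p) (K : Matrix (Fin N) (Fin N) ℝ)
    (hK : Kᵀ = -K) : GD' Γ v K (ι x) = 0 := by
  obtain ⟨U, hU, h0, hadd, hder⟩ := pathG Γ v K hK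
  have h1 := hder (ι x)
  have h3 : (fun t => GR Γ (U t) (ι x)) = fun _ => ι x := by
    funext t
    exact hx (U t) (hU t)
  rw [h3] at h1
  exact h1.unique (hasDerivAt_const _ _)

/-- the orthonormal basis of the invariant vectors -/
noncomputable def eb (Γ : Gph p b) (ι : V κ →ₗᵢ[ℝ] W b N)
    (j : Fin (Module.finrank ℝ (FX Γ ι))) : V κ :=
  (stdOrthonormalBasis ℝ (FX Γ ι) j : V κ)

theorem eb_orth : Orthonormal ℝ (eb Γ ι) := by
  have h := (stdOrthonormalBasis ℝ (FX Γ ι)).orthonormal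
  exact h.comp_linearIsometry (FX Γ ι).subtypeₗᵢ

theorem eb_sum (w : V κ) :
    ∑ j, ⟪eb Γ ι j, w⟫_ℝ ^ 2 = ‖(FX Γ ι).orthogonalProjection w‖ ^ 2 := by
  have h := (stdOrthonormalBasis ℝ (FX Γ ι)).sum_sq_norm_inner_right
    ((FX Γ ι).orthogonalProjection w)
  rw [← h]
  refine Finset.sum_congr rfl fun j _ => ?_
  rw [Real.norm_eq_abs, sq_abs]
  congr 1
  have h2 : ⟪stdOrthonormalBasis ℝ (FX Γ ι) j, (FX Γ ι).orthogonalProjection w⟫_ℝ =
      ⟪(stdOrthonormalBasis ℝ (FX Γ ι) j : V κ),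
        ((FX Γ ι).orthogonalProjection w : V κ)⟫_ℝ := rfl
  rw [h2]
  have h3 : ⟪(stdOrthonormalBasis ℝ (FX Γ ι) j : V κ),
      w - (FX Γ ι).orthogonalProjection w⟫_ℝ = 0 :=
    Submodule.sub_starProjection_mem_orthogonal (K := FX Γ ι) w _
      (stdOrthonormalBasis ℝ (FX Γ ι) j).2
  rw [inner_sub_right] at h3
  show ⟪(stdOrthonormalBasis ℝ (FX Γ ι) j : V κ), w⟫_ℝ = _
  linarith

theorem ee_fixG {e : Fin b} (he : Loop Γ e) {γ : Fin p → Matrix (Fin N) (Fin N) ℝ}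
    (hγ : IsG γ) : GR Γ γ (ee e : W b N) = ee e := by
  refine ext_W fun i => ?_
  rw [mt_GR]
  unfold ee
  rw [mt_mk]
  split_ifs with h
  · subst h
    have h1 : Γ.tl i = some (Γ.hd i) := he
    rw [h1, ex_some, Matrix.mul_smul, Matrix.smul_mul, Matrix.mul_one, orth1 (hγ _).1]
  · rw [Matrix.mul_zero, Matrix.zero_mul]

theorem pj_ee_mem (hι : InvG Γ ι) {e : Fin b} (he : Loop Γ e) : pj ι (ee e) ∈ FX Γ ι := by
  intro γ hγ
  rw [← ι_aG hι hγ]
  congr 1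
  refine ext_inner_right ℝ fun y => ?_
  have h1 : ⟪aG Γ ι γ (pj ι (ee e)), y⟫_ℝ =
      ⟪pj ι (ee e), aG Γ ι (fun v => (γ v)ᵀ) y⟫_ℝ := by
    have h2 := (isoG hι γ hγ).inner_map_map (pj ι (ee e)) (aG Γ ι (fun v => (γ v)ᵀ) y)
    have h3 : isoG hι γ hγ (aG Γ ι (fun v => (γ v)ᵀ) y) = y :=
      (isoG hι γ hγ).apply_symm_apply y
    rw [h3] at h2
    exact h2
  rw [h1, pj_inner, pj_inner, ι_aG hι hγ.tp]
  have h4 := inner_GR Γ hγ.tp (ee e) (ι y)
  rw [ee_fixG he hγ.tp] at h4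
  exact h4

theorem casS (hN : 2 ≤ N) (hι : InvG Γ ι) (w : V κ) :
    ((N : ℝ) - 2) / 2 * (‖w‖ ^ 2 - ∑ j, ⟪eb Γ ι j, w⟫_ℝ ^ 2) ≤
      ∑ k : Fin p × KI N, ‖DG Γ ι k.1 (Km ℝ k.2) w‖ ^ 2 := by
  rw [eb_sum]
  obtain ⟨q, hq⟩ : ∃ q : V κ, q = ((FX Γ ι).orthogonalProjection w : V κ) := ⟨_, rfl⟩
  obtain ⟨w', hw'⟩ : ∃ w' : V κ, w' = w - q := ⟨_, rfl⟩
  have hqF : q ∈ FX Γ ι := by rw [hq]; exact ((FX Γ ι).orthogonalProjection w).2
  have hw'F : ∀ f ∈ FX Γ ι, ⟪f, w'⟫_ℝ = 0 := by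
    rw [hw', hq]
    exact fun f hf => Submodule.sub_starProjection_mem_orthogonal (K := FX Γ ι) w f hf
  have hqn : ‖(FX Γ ι).orthogonalProjection w‖ = ‖q‖ := by rw [hq]; rfl
  have hww : w = q + w' := by rw [hw']; abel
  have hn : ‖w‖ ^ 2 = ‖q‖ ^ 2 + ‖w'‖ ^ 2 := by
    rw [hww, norm_add_sq_real, hw'F q hqF]
    ring
  have hD : ∀ k : Fin p × KI N, ‖DG Γ ι k.1 (Km ℝ k.2) w‖ ^ 2 =
      ‖GD' Γ k.1 (Km ℝ k.2) (ι w')‖ ^ 2 := by
    intro k
    rw [← ι.norm_map, ι_DG hι _ _ (Km_tp k.2)]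
    congr 2
    rw [hww, map_add, map_add, FX_D q hqF _ _ (Km_tp k.2), zero_add]
  rw [Finset.sum_congr rfl fun k _ => hD k, hqn, hn]
  have h1 := casG hN Γ (ι w')
  have h2 : (∑ e, if Loop Γ e then ⟪ee e, ι w'⟫_ℝ ^ 2 else 0) = 0 := by
    refine Finset.sum_eq_zero fun e _ => ?_
    split_ifs with he
    · rw [← pj_inner, hw'F _ (pj_ee_mem hι he)]
      norm_num
    · rfl
  rw [h2, sub_zero, ι.norm_map] at h1
  have e : ‖q‖ ^ 2 + ‖w'‖ ^ 2 - ‖q‖ ^ 2 = ‖w'‖ ^ 2 := by ring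
  rw [e]
  exact h1

theorem dataG (hN : 3 ≤ N) (hι : InvG Γ ι) : ∃ κ0 : ℝ, (N : ℝ) - 2 ≤ κ0 ∧
    LD (GG Γ ι) (fun k : Fin p × KI N => DG Γ ι k.1 (Km ℝ k.2)) (eb Γ ι) κ0
      (((N : ℝ) - 2) / 2) := by
  have hN3 : (3 : ℝ) ≤ N := by exact_mod_cast hN
  obtain ⟨c, κ0, hκ, hc1, hc2, hc3, hc4⟩ := alg hN
  refine ⟨κ0, hκ, ?_, ?_, by linarith, by linarith, eb_orth, casS (by omega) hι, ?_, ?_⟩
  · intro k x y
    rw [← ι.inner_map_map, ← ι.inner_map_map x, ι_DG hι _ _ (Km_tp k.2), ι_DG hι _ _ (Km_tp k.2)]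
    exact GD'_skew Γ _ (Km_tp k.2) _ _
  · refine prod_fam (fun v (k : KI N) => DG Γ ι v (Km ℝ k)) c hc1 hc2 ?_ ?_ κ0 ?_
    · intro v i j x
      apply ι.injective
      simp only [map_sub, map_sum, map_smul, ι_DG hι _ _ (Km_tp _)]
      rw [GD'_comm, hc3, GD'_sum]
    · intro v w hvw i j x
      apply ι.injective
      simp only [map_sub, ι_DG hι _ _ (Km_tp _)]
      rw [GD'_comm' Γ hvw, map_zero]
    · intro v k x
      apply ι.injective
      simp only [map_sum, map_smul, ι_DG hι _ _ (Km_tp _)]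
      rw [← GD'_sum, hc4, GD'_smul]
  · intro k
    obtain ⟨U, hU, h0, hadd, hder⟩ := pathG Γ k.1 (Km ℝ k.2) (Km_tp k.2)
    refine ⟨fun t => isoG hι (U t) (hU t), fun t => isoG_mem hι _ _, ?_, ?_, ?_⟩
    · intro x
      apply ι.injective
      rw [isoG_apply, h0]
    · intro s t x
      apply ι.injective
      rw [isoG_apply, isoG_apply, isoG_apply, GR_GR, hadd]
    · intro x
      exact ((pj ι).hasFDerivAt).comp_hasDerivAt (0 : ℝ) (hder (ι x))
  · rintro e ⟨γ, hγ, he⟩ j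
    apply ι.injective
    rw [he]
    exact (stdOrthonormalBasis ℝ (FX Γ ι) j).2 γ hγ

end sub

end Pool.Agent.W5h90.GI
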