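import Pool.Agent.W5h90.GI.A3

/-!
# Matrices on the edges of a graph: operator norms
-/

set_option autoImplicit false

namespace Pool.Agent.W5h90.GI

open MeasureTheory Set Matrix
open scoped ENNReal InnerProductSpace
open Pool.Agent.TH591.TT
open Pool.Agent.H888R2.KC (KI Km ip Km_skew Km_complete Km_parseval)

section ws

variable {ι a b : Type} [Fintype ι] [Fintype a] [Fintype b]

theorem entry_ws (f g : ι → ℝ) (hf0 : ∀ i, 0 ≤ f i) (hg0 : ∀ i, 0 ≤ g i)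
    (hf : ∀ i, f i * f i = f i) (hg : ∀ i, g i * g i = g i) (u v : ι → ℝ) :
    (∑ i, (f i * u i - g i * v i)) ^ 2 ≤
      (∑ i, (f i + g i)) * ∑ i, (f i * u i ^ 2 + g i * v i ^ 2) := by
  have h := Finset.sum_sq_le_sum_mul_sum_of_sq_eq_mul (Finset.univ : Finset (ι ⊕ ι))
    (r := Sum.elim (fun i => f i * u i) (fun i => -(g i * v i)))
    (f := Sum.elim f g) (g := Sum.elim (fun i => f i * u i ^ 2) (fun i => g i * v i ^ 2))
    (by
      rintro (i | i) _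
      · exact hf0 i
      · exact hg0 i)
    (by
      rintro (i | i) _
      · exact mul_nonneg (hf0 i) (sq_nonneg _)
      · exact mul_nonneg (hg0 i) (sq_nonneg _))
    (by
      rintro (i | i) _
      · simp only [Sum.elim_inl]
        ring
      · simp only [Sum.elim_inr]
        ring)
  rw [Fintype.sum_sum_type, Fintype.sum_sum_type, Fintype.sum_sum_type] at h
  simp only [Sum.elim_inl, Sum.elim_inr] at h
  rw [← Finset.sum_add_distrib, ← Finset.sum_add_distrib, ← Finset.sum_add_distrib] at h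
  simpa only [sub_eq_add_neg] using h

theorem hs_ws (f g : ι → ℝ) (hf0 : ∀ i, 0 ≤ f i) (hg0 : ∀ i, 0 ≤ g i)
    (hf : ∀ i, f i * f i = f i) (hg : ∀ i, g i * g i = g i) (A B : ι → Matrix a b ℝ) :
    hs (∑ i, (f i • A i - g i • B i)) (∑ i, (f i • A i - g i • B i)) ≤
      (∑ i, (f i + g i)) * ∑ i, (f i * hs (A i) (A i) + g i * hs (B i) (B i)) := by
  have h1 : ∑ i, (f i * hs (A i) (A i) + g i * hs (B i) (B i)) =
      ∑ p, ∑ q, ∑ i, (f i * A i p q ^ 2 + g i * B i p q ^ 2) := by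
    rw [show (∑ p, ∑ q, ∑ i, (f i * A i p q ^ 2 + g i * B i p q ^ 2)) =
        ∑ p, ∑ i, ∑ q, (f i * A i p q ^ 2 + g i * B i p q ^ 2) from
        Finset.sum_congr rfl fun p _ => Finset.sum_comm, Finset.sum_comm]
    refine Finset.sum_congr rfl fun i _ => ?_
    unfold hs
    simp only [Finset.sum_add_distrib, Finset.mul_sum, sq]
  rw [h1, Finset.mul_sum]
  unfold hs
  refine Finset.sum_le_sum fun p _ => ?_
  rw [Finset.mul_sum]
  refine Finset.sum_le_sum fun q _ => ?_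
  have h2 : (∑ i, (f i • A i - g i • B i)) p q = ∑ i, (f i * A i p q - g i * B i p q) := by
    rw [Matrix.sum_apply]
    rfl
  rw [h2, ← sq]
  exact entry_ws f g hf0 hg0 hf hg _ _

end ws

section set

variable {p b N : ℕ}

/-- all operator norms are at most `r` -/
def BW (b N : ℕ) (r : ℝ) : Set (W b N) := {x | ∀ e, ‖tm (mt e x)‖ ≤ r}

theorem BW_closed (r : ℝ) : IsClosed (BW b N r) := by
  have h1 : ∀ e : Fin b, Continuous fun x : W b N => ‖tm (mt e x)‖ := fun e =>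
    ((tm ∘ₗ mt e).continuous_of_finiteDimensional).norm
  have h3 : BW b N r = ⋂ e, {x | ‖tm (mt e x)‖ ≤ r} := by
    ext x
    simp [BW]
  rw [h3]
  exact isClosed_iInter fun e => isClosed_le (h1 e) continuous_const

theorem BW_convex (r : ℝ) : Convex ℝ (BW b N r) := by
  rintro x hx y hy s t hs ht hst e
  rw [map_add, map_smul, map_smul, map_add, map_smul, map_smul]
  calc ‖s • tm (mt e x) + t • tm (mt e y)‖ ≤ ‖s • tm (mt e x)‖ + ‖t • tm (mt e y)‖ :=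
        norm_add_le _ _
    _ = s * ‖tm (mt e x)‖ + t * ‖tm (mt e y)‖ := by
        rw [norm_smul, norm_smul, Real.norm_of_nonneg hs, Real.norm_of_nonneg ht]
    _ ≤ s * r + t * r := add_le_add (mul_le_mul_of_nonneg_left (hx e) hs)
        (mul_le_mul_of_nonneg_left (hy e) ht)
    _ = r := by rw [← add_mul, hst, one_mul]

theorem BW_GR (Γ : Gph p b) {γ : Fin p → Matrix (Fin N) (Fin N) ℝ} (hγ : IsG γ) (r : ℝ)
    (x : W b N) (hx : x ∈ BW b N r) : GR Γ γ x ∈ BW b N r := by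
  intro e
  rw [mt_GR]
  refine (norm_right _ ?_ _).trans ((norm_left _ (orth2 (hγ _).1) _).trans (hx e))
  rw [Matrix.transpose_transpose]
  exact orth1 (hγ.ex _).1

theorem BW_inv {κ : Type} [Fintype κ] {Γ : Gph p b} {ι : V κ →ₗᵢ[ℝ] W b N} (r : ℝ) :
    ∀ e ∈ GG Γ ι, ∀ x, e x ∈ ι ⁻¹' (BW b N r) ↔ x ∈ ι ⁻¹' (BW b N r) := by
  rintro e ⟨γ, hγ, he⟩ x
  show ι (e x) ∈ BW b N r ↔ ι x ∈ BW b N r
  rw [he]
  refine ⟨fun h => ?_, fun h => BW_GR Γ hγ r _ h⟩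
  have h1 := BW_GR Γ hγ.tp r _ h
  rwa [GR_tp1 Γ hγ] at h1

theorem sum_τ (Γ : Gph p b) (e : Fin b) : ∑ v, τ Γ e v = 1 := by
  unfold τ
  simp

theorem sum_σ (Γ : Gph p b) (e : Fin b) : ∑ v, σ Γ e v ≤ 1 := by
  unfold σ
  rcases Γ.tl e with _ | w
  · simp
  · simp

theorem BW_L (Γ : Gph p b) (Δ : ℝ) (hΔ0 : 0 ≤ Δ)
    (hΔ : ∀ v, ∑ e, (τ Γ e v + σ Γ e v) ≤ Δ) (r : ℝ) (x : W b N)
    (hx : x ∈ BW b N r) (w : W b N) :
    ∑ k : Fin p × KI N, ⟪w, GD' Γ k.1 (Km ℝ k.2) x⟫_ℝ ^ 2 ≤ 2 * Δ * r ^ 2 * ‖w‖ ^ 2 := by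
  have h1 : ∀ (v : Fin p) (k : KI N), ⟪w, GD' Γ v (Km ℝ k) x⟫_ℝ = hs (Km ℝ k)
      (∑ e, (τ Γ e v • (mt e w * (mt e x)ᵀ) - σ Γ e v • ((mt e x)ᵀ * mt e w))) := by
    intro v k
    rw [inner_W, hs_sum_right]
    refine Finset.sum_congr rfl fun e _ => ?_
    rw [mt_GD', hs_sub_right, hs_sub_right, hs_smul_right, hs_smul_right, hs_smul_right,
      hs_smul_right, hs_comm (mt e w) (Km ℝ k * mt e x), hs_mul_right,
      hs_comm (mt e w) (mt e x * Km ℝ k), hs_mul_left]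
  have hA : ∀ e : Fin b, hs (mt e w * (mt e x)ᵀ) (mt e w * (mt e x)ᵀ) ≤
      r ^ 2 * hs (mt e w) (mt e w) := by
    intro e
    have e2 : hs (mt e w * (mt e x)ᵀ) (mt e w * (mt e x)ᵀ) =
        hs (mt e x * (mt e w)ᵀ) (mt e x * (mt e w)ᵀ) := by
      rw [← hs_tp, Matrix.transpose_mul, Matrix.transpose_transpose]
    rw [e2]
    refine (hs_mul_le _ _).trans ?_
    rw [hs_tp]
    exact mul_le_mul_of_nonneg_right (pow_le_pow_left₀ (norm_nonneg _) (hx e) 2) (hs_nonneg _)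
  have hB : ∀ e : Fin b, hs ((mt e x)ᵀ * mt e w) ((mt e x)ᵀ * mt e w) ≤
      r ^ 2 * hs (mt e w) (mt e w) := by
    intro e
    refine (hs_mul_le _ _).trans ?_
    exact mul_le_mul_of_nonneg_right
      (pow_le_pow_left₀ (norm_nonneg _) ((norm_tp _).trans (hx e)) 2) (hs_nonneg _)
  have h2 : ∀ v : Fin p, ∑ k : KI N, ⟪w, GD' Γ v (Km ℝ k) x⟫_ℝ ^ 2 ≤
      Δ * ∑ e, (τ Γ e v + σ Γ e v) * (r ^ 2 * hs (mt e w) (mt e w)) := by
    intro v
    simp only [h1]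
    refine (parseval_le _).trans ((hs_ws _ _ (fun e => τ_nonneg Γ e v) (fun e => σ_nonneg Γ e v)
      (fun e => τ_sq Γ e v) (fun e => σ_sq Γ e v) _ _).trans ?_)
    refine mul_le_mul (hΔ v) (Finset.sum_le_sum fun e _ => ?_) (Finset.sum_nonneg fun e _ =>
      add_nonneg (mul_nonneg (τ_nonneg Γ e v) (hs_nonneg _))
        (mul_nonneg (σ_nonneg Γ e v) (hs_nonneg _))) hΔ0
    have e1 := mul_le_mul_of_nonneg_left (hA e) (τ_nonneg Γ e v)
    have e2 := mul_le_mul_of_nonneg_left (hB e) (σ_nonneg Γ e v)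
    rw [add_mul]
    exact add_le_add e1 e2
  rw [Fintype.sum_prod_type]
  refine (Finset.sum_le_sum fun v _ => h2 v).trans ?_
  rw [← Finset.mul_sum, Finset.sum_comm, norm_W]
  have h3 : ∑ e, ∑ v, (τ Γ e v + σ Γ e v) * (r ^ 2 * hs (mt e w) (mt e w)) ≤
      2 * r ^ 2 * ∑ e, hs (mt e w) (mt e w) := by
    rw [Finset.mul_sum]
    refine Finset.sum_le_sum fun e _ => ?_
    rw [← Finset.sum_mul, Finset.sum_add_distrib, sum_τ]
    have h4 := sum_σ Γ e
    have h5 : 0 ≤ r ^ 2 * hs (mt e w) (mt e w) := mul_nonneg (sq_nonneg _) (hs_nonneg _)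
    nlinarith
  have h6 := mul_le_mul_of_nonneg_left h3 hΔ0
  refine h6.trans (le_of_eq (by ring))

end set

end Pool.Agent.W5h90.GI
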