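import Pool.Agent.W5h90.GI.A4

/-!
# Matrices on the edges of a graph: tails of the operator norms
-/

set_option autoImplicit false

namespace Pool.Agent.W5h90.GI

open MeasureTheory Set Matrix
open scoped ENNReal InnerProductSpace
open Pool.Agent.TH591.TT
open Pool.Agent.H212R2.KLS (mu Bdd)
open Pool.Agent.H888R2.KC (T1x.vec T1x.cm)

section tails

variable {κ : Type} [Fintype κ] {q m N : ℕ} {ι : V κ →ₗᵢ[ℝ] V (Ix q m N)} {ρ : V κ → ℝ}
  {G : Set (V κ ≃ₗᵢ[ℝ] V κ)}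

/-- the matrix number `l` is conjugated -/
def LI (G : Set (V κ ≃ₗᵢ[ℝ] V κ)) (ι : V κ →ₗᵢ[ℝ] V (Ix q m N)) (l : Fin q) : Prop :=
  ∀ g : Matrix (Fin N) (Fin N) ℝ, IsSO g → ∃ e ∈ G, ∀ x, mt l (ι (e x)) = mt l (RR g (ι x))

/-- the matrix number `l` is multiplied from the left -/
def LL (G : Set (V κ ≃ₗᵢ[ℝ] V κ)) (ι : V κ →ₗᵢ[ℝ] V (Ix q m N)) (l : Fin q) : Prop :=
  ∀ g : Matrix (Fin N) (Fin N) ℝ, IsSO g → ∃ e ∈ G, ∀ x, mt l (ι (e x)) = g * mt l (ι x)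

/-- invariance of the measure of a set -/
theorem meas_leL (hρ : GD G ρ) {e : V κ ≃ₗᵢ[ℝ] V κ} (he : e ∈ G) (S S' : Set (V κ))
    (h : ∀ x ∈ S, e x ∈ S') : mu ρ S ≤ mu ρ S' := by
  have hmap := hρ.map_mu e he
  calc mu ρ S ≤ mu ρ (e ⁻¹' S') := measure_mono fun x hx => h x hx
    _ ≤ (mu ρ).map e S' := Measure.le_map_apply e.continuous.measurable.aemeasurable _
    _ = mu ρ S' := by rw [hmap]

theorem Tc_eq (α β : ℝ) {l : Fin q} (j : Fin N) {x y : V (Ix q m N)} (h : mt l x = mt l y) :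
    Tc α β l j x = Tc α β l j y := by
  show T1x.vec j (fun k => α * mt l x k j + β * mt l x j k) =
    T1x.vec j (fun k => α * mt l y k j + β * mt l y j k)
  rw [h]

/-- `X_l w` -/
noncomputable def Tw (l : Fin q) (w : EuclideanSpace ℝ (Fin N)) :
    V (Ix q m N) →ₗ[ℝ] EuclideanSpace ℝ (Fin N) where
  toFun x := tm (mt l x) w
  map_add' x y := by rw [map_add, map_add]; rfl
  map_smul' c x := by rw [map_smul, map_smul]; rfl

theorem Tw_tail (hN : 3 ≤ N) {l : Fin q} (hl : LL G ι l) (hρ : GD G ρ) (hb : Bdd ρ)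
    (h1 : mu ρ univ = 1) (s : ℝ) (hs : 0 < s)
    (hmom : ∀ θ : V κ, ∫ x, ⟪θ, x⟫_ℝ ^ 2 ∂(mu ρ) ≤ s * ‖θ‖ ^ 2)
    (w : EuclideanSpace ℝ (Fin N)) (hw : ‖w‖ ≤ 1) (r : ℝ) :
    mu ρ {x | r ≤ ‖tm (mt l (ι x)) w‖} ≤
      ENNReal.ofReal (Real.exp (N * (5 / 2 - r / (20 * Real.sqrt (N * s))))) := by
  refine rad_tail hρ hb h1 s hs hmom (by omega) (Tw l w ∘ₗ ι.toLinearMap) (fun x => ?_)
    (fun y z hyz => ?_) r
  · show ‖tm (mt l (ι x)) w‖ ≤ ‖x‖
    have h2 : ‖tm (mt l (ι x)) w‖ ^ 2 ≤ ‖x‖ ^ 2 := by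
      refine (tm_le_hs _ _).trans ?_
      have h3 : ‖w‖ ^ 2 ≤ 1 := pow_le_one₀ (norm_nonneg _) hw
      have h4 := hs_mt_le (ι x) l
      have h5 := hs_nonneg (mt l (ι x))
      rw [ι.norm_map] at h4
      nlinarith
    exact (abs_le_of_sq_le_sq' h2 (norm_nonneg _)).2
  · obtain ⟨g, hg, hgy⟩ := trans_fullS hN y z hyz
    obtain ⟨e, he, hex⟩ := hl g hg
    refine ⟨e, he, fun x => ?_⟩
    show ‖tm (mt l (ι (e x))) w - z‖ = ‖tm (mt l (ι x)) w - y‖
    rw [hex, tm_mul, ← hgy, ← map_sub, norm_orth g (orth2 hg.1)]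

theorem Tc_tailL (hN : 3 ≤ N) {l : Fin q} (hl : LI G ι l) (hρ : GD G ρ) (hb : Bdd ρ)
    (h1 : mu ρ univ = 1) (s : ℝ) (hs : 0 < s)
    (hmom : ∀ θ : V κ, ∫ x, ⟪θ, x⟫_ℝ ^ 2 ∂(mu ρ) ≤ s * ‖θ‖ ^ 2)
    (α β : ℝ) (hα : 0 ≤ α) (hβ : 0 ≤ β) (hαβ : α + β = 1) (j : Fin N) (u : ℝ) :
    mu ρ {x | u * Real.sqrt (N * s) ≤ ‖Tc α β l j (ι x)‖} ≤
      ENNReal.ofReal (Real.exp (N * (5 - u / 30))) := by
  have hP : IsProbabilityMeasure (mu ρ) := ⟨h1⟩
  have hN0 : (0 : ℝ) < N := by exact_mod_cast (by omega : 0 < N)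
  rcases lt_or_ge u 0 with hu | hu
  · calc mu ρ {x | u * Real.sqrt (N * s) ≤ ‖Tc α β l j (ι x)‖} ≤ 1 := prob_le_one
      _ = ENNReal.ofReal 1 := ENNReal.ofReal_one.symm
      _ ≤ _ := by
        apply ENNReal.ofReal_le_ofReal
        apply Real.one_le_exp
        apply mul_nonneg hN0.le
        linarith
  obtain ⟨hm1, hm2, hm3⟩ := Pool.Agent.H888R2.KC.T1x.card_le (𝕜 := ℝ) j (by omega)
  have hmR1 : (1 : ℝ) ≤ T1x.cm ℝ j := by exact_mod_cast hm1
  have hmR2 : (N : ℝ) ≤ 2 * T1x.cm ℝ j := by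
    have : N ≤ 2 * T1x.cm ℝ j := by omega
    exact_mod_cast this
  have hmR3 : (T1x.cm ℝ j : ℝ) ≤ 2 * N := by
    have : T1x.cm ℝ j ≤ 2 * N := by omega
    exact_mod_cast this
  refine le_trans (rad_tail hρ hb h1 s hs hmom hm1 (Tc α β l j ∘ₗ ι.toLinearMap)
    (fun x => (Tc_norm α β hα hβ hαβ l j (ι x)).trans (ι.norm_map x).le)
    (fun y z hyz => ?_) (u * Real.sqrt (N * s))) ?_
  · obtain ⟨w, hw0, hw⟩ := Pool.Agent.H888R2.KC.T1x.vec_surj j y
    obtain ⟨w', hw0', hw'⟩ := Pool.Agent.H888R2.KC.T1x.vec_surj j z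
    have hn : ∑ k, ‖w k‖ ^ 2 = ∑ k, ‖w' k‖ ^ 2 := by
      rw [← Pool.Agent.H888R2.KC.T1x.norm_vec_full j w,
        ← Pool.Agent.H888R2.KC.T1x.norm_vec_full j w', hw, hw', hw0, hw0', hyz]
    obtain ⟨g, hg, hgw, hgj⟩ := trans_offS hN j w w' hw0 hw0' hn
    obtain ⟨e, he, hex⟩ := hl g hg
    refine ⟨e, he, fun x => ?_⟩
    show ‖Tc α β l j (ι (e x)) - z‖ = _
    rw [Tc_eq α β j (hex x), Tc_RR α β l j g hgj, ← hw, ← hw', ← hgw,
      Pool.Agent.H888R2.KC.T1x.vec_unitary j g hg.1 hgj]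
    rfl
  apply ENNReal.ofReal_le_ofReal
  apply Real.exp_le_exp.2
  set m' : ℝ := (T1x.cm ℝ j : ℝ) with hm
  have hm0 : 0 < m' := by linarith
  set A := Real.sqrt (N * s) with hA
  set B := Real.sqrt (m' * s) with hB
  have hA0 : 0 < A := Real.sqrt_pos.2 (by positivity)
  have hB0 : 0 < B := Real.sqrt_pos.2 (by positivity)
  have hA2 : A ^ 2 = N * s := Real.sq_sqrt (by positivity)
  have hB2 : B ^ 2 = m' * s := Real.sq_sqrt (by positivity)
  have hkey : 2 * N * B ≤ 3 * m' * A := by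
    have h2 : (2 * N * B) ^ 2 ≤ (3 * m' * A) ^ 2 := by
      rw [mul_pow, mul_pow, mul_pow, mul_pow, hA2, hB2]
      have h3 : 0 ≤ N * m' * s * (9 * m' - 4 * N) := by
        apply mul_nonneg (by positivity)
        linarith
      nlinarith
    exact (abs_le_of_sq_le_sq' h2 (by positivity)).2
  have h4 : N * (u / 30) ≤ m' * (u * A / (20 * B)) := by
    rw [mul_div_assoc', mul_div_assoc', div_le_div_iff₀ (by norm_num) (by positivity)]
    nlinarith [mul_le_mul_of_nonneg_left hkey hu]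
  have h5 : m' * (5 / 2) ≤ N * 5 := by linarith
  have h6 : m' * (5 / 2 - u * A / (20 * B)) = m' * (5 / 2) - m' * (u * A / (20 * B)) := by ring
  rw [h6]
  linarith

theorem diff_tailL (hN : 3 ≤ N) {l : Fin q} (hl : LI G ι l) (hρ : GD G ρ) (hb : Bdd ρ)
    (h1 : mu ρ univ = 1) (s : ℝ) (hs : 0 < s)
    (hmom : ∀ θ : V κ, ∫ x, ⟪θ, x⟫_ℝ ^ 2 ∂(mu ρ) ≤ s * ‖θ‖ ^ 2)
    (i j : Fin N) (hij : i ≠ j) (u : ℝ) :
    mu ρ {x | 2 * u * Real.sqrt (N * s) ≤ |mt l (ι x) i i - mt l (ι x) j j|} ≤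
      ENNReal.ofReal (Real.exp (N * (5 - u / 30))) := by
  obtain ⟨g, hg, hent⟩ := RmS hN hij
  obtain ⟨e, he, hex⟩ := hl g hg
  refine (meas_leL hρ he _
    {x | u * Real.sqrt (N * s) ≤ ‖Tc (1 / 2) (1 / 2) l j (ι x)‖} ?_).trans
    (Tc_tailL hN hl hρ hb h1 s hs hmom _ _ (by norm_num) (by norm_num) (by norm_num) j u)
  intro x hx
  have hx' : 2 * u * Real.sqrt (N * s) ≤ |mt l (ι x) i i - mt l (ι x) j j| := hx
  show u * Real.sqrt (N * s) ≤ ‖Tc (1 / 2) (1 / 2) l j (ι (e x))‖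
  rw [Tc_eq _ _ j (hex x)]
  have h2 := coord_le j i hij (fun k => 1 / 2 * mt l (RR g (ι x)) k j +
    1 / 2 * mt l (RR g (ι x)) j k)
  have e1 : mt l (RR g (ι x)) i j =
      1 / 2 * (mt l (ι x) i j - mt l (ι x) j i - (mt l (ι x) i i - mt l (ι x) j j)) := by
    rw [mt_RR]
    exact (hent _).1
  have e2 : mt l (RR g (ι x)) j i =
      1 / 2 * (mt l (ι x) j i - mt l (ι x) i j - (mt l (ι x) i i - mt l (ι x) j j)) := by
    rw [mt_RR]
    exact (hent _).2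
  have e4 : |(fun k => 1 / 2 * mt l (RR g (ι x)) k j +
      1 / 2 * mt l (RR g (ι x)) j k) i| = 1 / 2 * |mt l (ι x) i i - mt l (ι x) j j| := by
    show |1 / 2 * mt l (RR g (ι x)) i j + 1 / 2 * mt l (RR g (ι x)) j i| = _
    rw [e1, e2]
    have : 1 / 2 * (1 / 2 * (mt l (ι x) i j - mt l (ι x) j i -
          (mt l (ι x) i i - mt l (ι x) j j))) +
        1 / 2 * (1 / 2 * (mt l (ι x) j i - mt l (ι x) i j -
          (mt l (ι x) i i - mt l (ι x) j j))) =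
        -(1 / 2 * (mt l (ι x) i i - mt l (ι x) j j)) := by ring
    rw [this, abs_neg, abs_mul, abs_of_pos (by norm_num : (0 : ℝ) < 1 / 2)]
  rw [e4] at h2
  have h3 : ‖Tc (1 / 2) (1 / 2) l j (RR g (ι x))‖ =
      ‖T1x.vec j fun k => 1 / 2 * mt l (RR g (ι x)) k j +
        1 / 2 * mt l (RR g (ι x)) j k‖ := rfl
  rw [h3]
  linarith

theorem tr_tailL (hN : 1 ≤ N) (hρ : GD G ρ) (hb : Bdd ρ)
    (h1 : mu ρ univ = 1) (s : ℝ) (hs : 0 < s)
    (hmom : ∀ θ : V κ, ∫ x, ⟪θ, x⟫_ℝ ^ 2 ∂(mu ρ) ≤ s * ‖θ‖ ^ 2)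
    (l : Fin q) (b : ℝ) (hb0 : 0 ≤ b) :
    mu ρ {x | b ≤ |⟪ee l, ι x⟫_ℝ|} ≤
      2 * ENNReal.ofReal (Real.exp (-(b / (4 * Real.sqrt s)))) := by
  have hP : IsProbabilityMeasure (mu ρ) := ⟨h1⟩
  have hball := ball_null hρ.meas hb
  have hn : ‖(ee l : V (Ix q m N))‖ = 1 := (ee_orth hN).1 l
  have e : ∀ x, ⟪ee l, ι x⟫_ℝ = ⟪pj ι (ee l), x⟫_ℝ := fun x => (pj_inner _ _).symm
  simp only [e]
  refine Pool.Agent.H888R2.KC.lin_tail ρ hρ.nonneg hρ.meas hρ.logc h1 (pj ι (ee l)) s hs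
    (intg (mu ρ) hball _ (by fun_prop)) ?_ b hb0
  have h2 := hmom (pj ι (ee l))
  have h3 : ‖pj ι (ee l)‖ ≤ 1 := (pj_norm _).trans hn.le
  have h4 : ‖pj ι (ee l)‖ ^ 2 ≤ 1 := pow_le_one₀ (norm_nonneg _) h3
  nlinarith

theorem entry_tailL (hN : 3 ≤ N) {l : Fin q} (hl : LI G ι l) (hρ : GD G ρ) (hb : Bdd ρ)
    (h1 : mu ρ univ = 1) (s : ℝ) (hs : 0 < s)
    (hmom : ∀ θ : V κ, ∫ x, ⟪θ, x⟫_ℝ ^ 2 ∂(mu ρ) ≤ s * ‖θ‖ ^ 2)
    (i : Fin N) (u : ℝ) :
    mu ρ {x | 3 * u * Real.sqrt (N * s) ≤ |mt l (ι x) i i|} ≤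
      ENNReal.ofReal (Real.exp (N * (6 - u / 30))) := by
  classical
  have hNr : (3:ℝ) ≤ N := by exact_mod_cast hN
  have hN0 : (0:ℝ) < N := by linarith
  by_cases hu : u ≤ 180
  · calc mu ρ {x | 3 * u * Real.sqrt (N * s) ≤ |mt l (ι x) i i|} ≤ mu ρ univ :=
          measure_mono (subset_univ _)
      _ = 1 := h1
      _ ≤ ENNReal.ofReal (Real.exp (N * (6 - u / 30))) := by
        rw [← ENNReal.ofReal_one]
        apply ENNReal.ofReal_le_ofReal
        apply Real.one_le_exp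
        apply mul_nonneg hN0.le
        linarith
  · push Not at hu
    have hu0 : 0 < u := by linarith
    have hsq : 0 < Real.sqrt s := Real.sqrt_pos.mpr hs
    have hsN : 0 < Real.sqrt N := Real.sqrt_pos.mpr hN0
    have hNs : Real.sqrt (N * s) = Real.sqrt N * Real.sqrt s := Real.sqrt_mul hN0.le s
    have hNN : Real.sqrt N * Real.sqrt N = N := Real.mul_self_sqrt hN0.le
    have hcov : {x : V κ | 3 * u * Real.sqrt (N * s) ≤ |mt l (ι x) i i|} ⊆
        {x : V κ | u * N * Real.sqrt s ≤ |⟪ee l, ι x⟫_ℝ|} ∪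
        ⋃ j ∈ Finset.univ.erase i,
          {x : V κ | 2 * u * Real.sqrt (N * s) ≤ |mt l (ι x) i i - mt l (ι x) j j|} := by
      intro x hx
      by_contra hnot
      rw [mem_union, not_or] at hnot
      obtain ⟨hn1, hn2⟩ := hnot
      have hn1' : |⟪ee l, ι x⟫_ℝ| < u * N * Real.sqrt s := not_le.mp hn1
      have hn2' : ∀ j, j ≠ i → |mt l (ι x) i i - mt l (ι x) j j| < 2 * u * Real.sqrt (N * s) := by
        intro j hj
        by_contra hc
        apply hn2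
        rw [mem_iUnion₂]
        exact ⟨j, Finset.mem_erase.mpr ⟨hj, Finset.mem_univ _⟩, not_lt.mp hc⟩
      have htv : ⟪ee l, ι x⟫_ℝ = (Real.sqrt N)⁻¹ * ∑ j, mt l (ι x) j j := inner_ee l (ι x)
      have hS : |∑ j, mt l (ι x) j j| < u * N * Real.sqrt (N * s) := by
        have e : ∑ j, mt l (ι x) j j = Real.sqrt N * ⟪ee l, ι x⟫_ℝ := by
          rw [htv]; field_simp
        rw [e, abs_mul, abs_of_pos hsN, hNs]
        calc Real.sqrt N * |⟪ee l, ι x⟫_ℝ| < Real.sqrt N * (u * N * Real.sqrt s) :=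
              mul_lt_mul_of_pos_left hn1' hsN
          _ = u * N * (Real.sqrt N * Real.sqrt s) := by ring
      have hsum : (N:ℝ) * mt l (ι x) i i = ∑ j, mt l (ι x) j j +
          ∑ j, (mt l (ι x) i i - mt l (ι x) j j) := by
        rw [Finset.sum_sub_distrib]
        simp
      have hdb : |∑ j, (mt l (ι x) i i - mt l (ι x) j j)| ≤
          N * (2 * u * Real.sqrt (N * s)) := by
        refine (Finset.abs_sum_le_sum_abs _ _).trans ?_
        have : ∀ j ∈ Finset.univ, |mt l (ι x) i i - mt l (ι x) j j| ≤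
            2 * u * Real.sqrt (N * s) := by
          intro j _
          by_cases hj : j = i
          · subst hj
            rw [sub_self, abs_zero]
            positivity
          · exact (hn2' j hj).le
        refine (Finset.sum_le_sum this).trans ?_
        simp
      have hfin : (N:ℝ) * |mt l (ι x) i i| < N * (3 * u * Real.sqrt (N * s)) := by
        have e1 : (N:ℝ) * |mt l (ι x) i i| = |(N:ℝ) * mt l (ι x) i i| := by
          rw [abs_mul, abs_of_pos hN0]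
        rw [e1, hsum]
        have := abs_add_le (∑ j, mt l (ι x) j j) (∑ j, (mt l (ι x) i i - mt l (ι x) j j))
        linarith
      have hx' : 3 * u * Real.sqrt (N * s) ≤ |mt l (ι x) i i| := hx
      have := mul_le_mul_of_nonneg_left hx' hN0.le
      linarith
    have hA : mu ρ {x | u * N * Real.sqrt s ≤ |⟪ee l, ι x⟫_ℝ|} ≤
        ENNReal.ofReal (2 * Real.exp (N * (5 - u / 30))) := by
      refine (tr_tailL (by omega) hρ hb h1 s hs hmom l _ (by positivity)).trans ?_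
      rw [ENNReal.ofReal_mul (by norm_num)]
      simp only [ENNReal.ofReal_ofNat]
      gcongr
      have e : u * N * Real.sqrt s / (4 * Real.sqrt s) = u * N / 4 := by field_simp
      rw [e]
      nlinarith
    have hB : mu ρ (⋃ j ∈ Finset.univ.erase i, {x | 2 * u * Real.sqrt (N * s) ≤
        |mt l (ι x) i i - mt l (ι x) j j|}) ≤
        ENNReal.ofReal ((N - 1) * Real.exp (N * (5 - u / 30))) := by
      refine (measure_biUnion_finset_le _ _).trans ?_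
      have : ∀ j ∈ Finset.univ.erase i, mu ρ {x | 2 * u * Real.sqrt (N * s) ≤
          |mt l (ι x) i i - mt l (ι x) j j|} ≤ ENNReal.ofReal (Real.exp (N * (5 - u / 30))) := by
        intro j hj
        exact diff_tailL hN hl hρ hb h1 s hs hmom i j (Finset.ne_of_mem_erase hj).symm u
      refine (Finset.sum_le_sum this).trans ?_
      rw [Finset.sum_const, Finset.card_erase_of_mem (Finset.mem_univ _), Finset.card_univ,
        Fintype.card_fin, nsmul_eq_mul, ENNReal.ofReal_mul (by linarith)]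
      gcongr
      rw [← ENNReal.ofReal_natCast, Nat.cast_sub (by omega), Nat.cast_one]
    calc mu ρ {x | 3 * u * Real.sqrt (N * s) ≤ |mt l (ι x) i i|} ≤ _ := measure_mono hcov
      _ ≤ _ := measure_union_le _ _
      _ ≤ ENNReal.ofReal (2 * Real.exp (N * (5 - u / 30))) +
          ENNReal.ofReal ((N - 1) * Real.exp (N * (5 - u / 30))) := add_le_add hA hB
      _ = ENNReal.ofReal (((N:ℝ) + 1) * Real.exp (N * (5 - u / 30))) := by
        rw [← ENNReal.ofReal_add (by positivity) (mul_nonneg (by linarith) (Real.exp_pos _).le)]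
        congr 1; ring
      _ ≤ ENNReal.ofReal (Real.exp (N * (6 - u / 30))) := by
        apply ENNReal.ofReal_le_ofReal
        have e : Real.exp (N * (6 - u / 30)) = Real.exp N * Real.exp (N * (5 - u / 30)) := by
          rw [← Real.exp_add]; congr 1; ring
        rw [e]
        apply mul_le_mul_of_nonneg_right _ (Real.exp_pos _).le
        exact Real.add_one_le_exp _

theorem col_tailL (hN : 3 ≤ N) {l : Fin q} (hl : LI G ι l) (hρ : GD G ρ) (hb : Bdd ρ)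
    (h1 : mu ρ univ = 1) (s : ℝ) (hs : 0 < s)
    (hmom : ∀ θ : V κ, ∫ x, ⟪θ, x⟫_ℝ ^ 2 ∂(mu ρ) ≤ s * ‖θ‖ ^ 2)
    (i : Fin N) (u : ℝ) :
    mu ρ {x | 4 * u * Real.sqrt (N * s) ≤ ‖tm (mt l (ι x)) (EuclideanSpace.single i 1)‖} ≤
      ENNReal.ofReal (Real.exp (N * (7 - u / 30))) := by
  have hNr : (3:ℝ) ≤ N := by exact_mod_cast hN
  have hcov : {x : V κ | 4 * u * Real.sqrt (N * s) ≤
      ‖tm (mt l (ι x)) (EuclideanSpace.single i 1)‖} ⊆
      {x : V κ | u * Real.sqrt (N * s) ≤ ‖Tc 1 0 l i (ι x)‖} ∪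
        {x : V κ | 3 * u * Real.sqrt (N * s) ≤ |mt l (ι x) i i|} := by
    intro x hx
    by_contra hnot
    rw [mem_union, not_or] at hnot
    obtain ⟨hn1, hn2⟩ := hnot
    have hn1' : ‖Tc 1 0 l i (ι x)‖ < u * Real.sqrt (N * s) := not_le.mp hn1
    have hn2' : |mt l (ι x) i i| < 3 * u * Real.sqrt (N * s) := not_le.mp hn2
    have hx' : 4 * u * Real.sqrt (N * s) ≤ ‖tm (mt l (ι x)) (EuclideanSpace.single i 1)‖ := hx
    have h2 : ‖tm (mt l (ι x)) (EuclideanSpace.single i 1)‖ ^ 2 = ∑ k, (mt l (ι x) k i) ^ 2 := by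
      rw [tm_apply, EuclideanSpace.real_norm_sq_eq]
      refine Finset.sum_congr rfl fun k _ => ?_
      show (mt l (ι x) *ᵥ (EuclideanSpace.single i 1).ofLp) k ^ 2 = _
      congr 1
      rw [Matrix.mulVec, dotProduct, Finset.sum_eq_single i]
      · simp
      · intro b _ hb
        simp [hb]
      · intro h
        exact absurd (Finset.mem_univ i) h
    have h3 := Pool.Agent.H888R2.KC.T1x.norm_vec_full (𝕜 := ℝ) i
      (fun k => 1 * mt l (ι x) k i + 0 * mt l (ι x) i k)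
    have h4 : ‖Tc 1 0 l i (ι x)‖ ^ 2 + |mt l (ι x) i i| ^ 2 =
        ‖tm (mt l (ι x)) (EuclideanSpace.single i 1)‖ ^ 2 := by
      rw [h2]
      have e1 : ∀ k, ‖1 * mt l (ι x) k i + 0 * mt l (ι x) i k‖ ^ 2 = (mt l (ι x) k i) ^ 2 := by
        intro k
        rw [one_mul, zero_mul, add_zero, Real.norm_eq_abs, sq_abs]
      have e2 : |mt l (ι x) i i| ^ 2 = ‖1 * mt l (ι x) i i + 0 * mt l (ι x) i i‖ ^ 2 := by
        rw [one_mul, zero_mul, add_zero, Real.norm_eq_abs]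
      rw [e2]
      simp only [e1] at h3
      rw [← h3, e1]
      rfl
    have h5 : ‖tm (mt l (ι x)) (EuclideanSpace.single i 1)‖ ≤
        ‖Tc 1 0 l i (ι x)‖ + |mt l (ι x) i i| := by
      have h6 : ‖tm (mt l (ι x)) (EuclideanSpace.single i 1)‖ ^ 2 ≤
          (‖Tc 1 0 l i (ι x)‖ + |mt l (ι x) i i|) ^ 2 := by
        rw [← h4]
        have := mul_nonneg (norm_nonneg (Tc 1 0 l i (ι x))) (abs_nonneg (mt l (ι x) i i))
        nlinarith
      exact (abs_le_of_sq_le_sq' h6 (add_nonneg (norm_nonneg _) (abs_nonneg _))).2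
    linarith
  calc mu ρ {x | 4 * u * Real.sqrt (N * s) ≤ ‖tm (mt l (ι x)) (EuclideanSpace.single i 1)‖}
      ≤ _ := measure_mono hcov
    _ ≤ _ := measure_union_le _ _
    _ ≤ ENNReal.ofReal (Real.exp (N * (5 - u / 30))) +
        ENNReal.ofReal (Real.exp (N * (6 - u / 30))) := add_le_add
        (Tc_tailL hN hl hρ hb h1 s hs hmom _ _ (by norm_num) (by norm_num) (by norm_num) i u)
        (entry_tailL hN hl hρ hb h1 s hs hmom i u)
    _ = ENNReal.ofReal (Real.exp (N * (5 - u / 30)) + Real.exp (N * (6 - u / 30))) := by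
        rw [ENNReal.ofReal_add (Real.exp_pos _).le (Real.exp_pos _).le]
    _ ≤ ENNReal.ofReal (Real.exp (N * (7 - u / 30))) := by
        apply ENNReal.ofReal_le_ofReal
        have e1 : Real.exp (N * (5 - u / 30)) ≤ Real.exp (N * (6 - u / 30)) :=
          Real.exp_le_exp.2 (by nlinarith)
        have e2 : Real.exp (N * (7 - u / 30)) = Real.exp N * Real.exp (N * (6 - u / 30)) := by
          rw [← Real.exp_add]; congr 1; ring
        rw [e2]
        have e3 : (2 : ℝ) ≤ Real.exp N := by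
          have := Real.add_one_le_exp (N : ℝ)
          linarith
        have := mul_le_mul_of_nonneg_right e3 (Real.exp_pos (N * (6 - u / 30))).le
        linarith

theorem vec_tailL (hN : 3 ≤ N) {l : Fin q} (hl : LI G ι l) (hρ : GD G ρ) (hb : Bdd ρ)
    (h1 : mu ρ univ = 1) (s : ℝ) (hs : 0 < s)
    (hmom : ∀ θ : V κ, ∫ x, ⟪θ, x⟫_ℝ ^ 2 ∂(mu ρ) ≤ s * ‖θ‖ ^ 2)
    (v : EuclideanSpace ℝ (Fin N)) (hv : ‖v‖ ≤ 1) (u : ℝ) :
    mu ρ {x | 4 * u * Real.sqrt (N * s) ≤ ‖tm (mt l (ι x)) v‖} ≤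
      ENNReal.ofReal (Real.exp (N * (7 - u / 30))) := by
  obtain ⟨i0⟩ : Nonempty (Fin N) := ⟨⟨0, by omega⟩⟩
  obtain ⟨g, hg, hgv⟩ := trans_fullS hN (EuclideanSpace.single i0 ‖v‖) v (by simp)
  obtain ⟨e, he, hex⟩ := hl gᵀ hg.tp
  refine (meas_leL hρ he _
    {x | 4 * u * Real.sqrt (N * s) ≤ ‖tm (mt l (ι x)) (EuclideanSpace.single i0 1)‖} ?_).trans
    (col_tailL hN hl hρ hb h1 s hs hmom i0 u)
  intro x hx
  have hx' : 4 * u * Real.sqrt (N * s) ≤ ‖tm (mt l (ι x)) v‖ := hx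
  show 4 * u * Real.sqrt (N * s) ≤
    ‖tm (mt l (ι (e x))) (EuclideanSpace.single i0 1)‖
  rw [hex]
  refine le_trans hx' ?_
  have e1 : (EuclideanSpace.single i0 ‖v‖ : EuclideanSpace ℝ (Fin N)) =
      ‖v‖ • EuclideanSpace.single i0 1 := by
    ext k
    simp [EuclideanSpace.single_apply]
  have e2 : tm (mt l (RR gᵀ (ι x))) (EuclideanSpace.single i0 ‖v‖) =
      tm gᵀ (tm (mt l (ι x)) v) := by
    rw [mt_RR, tm_mul, tm_mul, Matrix.transpose_transpose, hgv]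
  have e3 : ‖tm (mt l (ι x)) v‖ =
      ‖tm (mt l (RR gᵀ (ι x))) (EuclideanSpace.single i0 ‖v‖)‖ := by
    rw [e2, norm_orth gᵀ (orth2 (orth_tp hg.1))]
  rw [e3, e1, map_smul, norm_smul, norm_norm]
  exact mul_le_of_le_one_left (norm_nonneg _) hv

/-- tails of the operator norm of a conjugated matrix -/
theorem op_tailI (hN : 3 ≤ N) {l : Fin q} (hl : LI G ι l) (hρ : GD G ρ) (hb : Bdd ρ)
    (h1 : mu ρ univ = 1) (s : ℝ) (hs : 0 < s)
    (hmom : ∀ θ : V κ, ∫ x, ⟪θ, x⟫_ℝ ^ 2 ∂(mu ρ) ≤ s * ‖θ‖ ^ 2) (u : ℝ) (hu : 0 < u) :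
    mu ρ {x | 6 * u * Real.sqrt (N * s) < ‖tm (mt l (ι x))‖} ≤
      ENNReal.ofReal (Real.exp (N * (10 - u / 30))) := by
  have hP : IsProbabilityMeasure (mu ρ) := ⟨h1⟩
  have hN0 : (0:ℝ) < N := by exact_mod_cast (by omega : 0 < N)
  have hsq : 0 < Real.sqrt (N * s) := Real.sqrt_pos.2 (by positivity)
  have h2 := net_tail (mu ρ) (fun x : V κ => tm (mt l (ι x)))
    ((tm ∘ₗ mt l ∘ₗ ι.toLinearMap).continuous_of_finiteDimensional)
    (6 * u * Real.sqrt (N * s)) (by positivity)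
    (ENNReal.ofReal (Real.exp (N * (7 - u / 30)))) (fun v hv => by
      refine le_trans (measure_mono ?_) (vec_tailL hN hl hρ hb h1 s hs hmom v hv u)
      intro x hx
      have hx' : 3 / 4 * (6 * u * Real.sqrt (N * s)) ≤ ‖tm (mt l (ι x)) v‖ := hx
      show 4 * u * Real.sqrt (N * s) ≤ ‖tm (mt l (ι x)) v‖
      have : 0 < u * Real.sqrt (N * s) := by positivity
      linarith)
  refine h2.trans ?_
  rw [finrank_euclideanSpace, Fintype.card_fin, ← ENNReal.ofReal_mul (by positivity)]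
  apply ENNReal.ofReal_le_ofReal
  calc (8 : ℝ) ^ N * Real.exp (N * (7 - u / 30)) ≤
        Real.exp (3 * N) * Real.exp (N * (7 - u / 30)) :=
        mul_le_mul_of_nonneg_right (exp3 N) (Real.exp_pos _).le
    _ = Real.exp (N * (10 - u / 30)) := by rw [← Real.exp_add]; congr 1; ring

/-- tails of the operator norm of a matrix multiplied from the left -/
theorem op_tailM (hN : 3 ≤ N) {l : Fin q} (hl : LL G ι l) (hρ : GD G ρ) (hb : Bdd ρ)
    (h1 : mu ρ univ = 1) (s : ℝ) (hs : 0 < s)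
    (hmom : ∀ θ : V κ, ∫ x, ⟪θ, x⟫_ℝ ^ 2 ∂(mu ρ) ≤ s * ‖θ‖ ^ 2) (u : ℝ) (hu : 0 < u) :
    mu ρ {x | 6 * u * Real.sqrt (N * s) < ‖tm (mt l (ι x))‖} ≤
      ENNReal.ofReal (Real.exp (N * (10 - u / 30))) := by
  have hP : IsProbabilityMeasure (mu ρ) := ⟨h1⟩
  have hN0 : (0:ℝ) < N := by exact_mod_cast (by omega : 0 < N)
  have hsq : 0 < Real.sqrt (N * s) := Real.sqrt_pos.2 (by positivity)
  have h2 := net_tail (mu ρ) (fun x : V κ => tm (mt l (ι x)))
    ((tm ∘ₗ mt l ∘ₗ ι.toLinearMap).continuous_of_finiteDimensional)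
    (6 * u * Real.sqrt (N * s)) (by positivity)
    (ENNReal.ofReal (Real.exp (N * (5 / 2 - (3 / 4 * (6 * u * Real.sqrt (N * s))) /
      (20 * Real.sqrt (N * s))))))
    (fun v hv => Tw_tail hN hl hρ hb h1 s hs hmom v hv _)
  refine h2.trans ?_
  rw [finrank_euclideanSpace, Fintype.card_fin, ← ENNReal.ofReal_mul (by positivity)]
  apply ENNReal.ofReal_le_ofReal
  have e1 : 3 / 4 * (6 * u * Real.sqrt (N * s)) / (20 * Real.sqrt (N * s)) = 9 / 40 * u := by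
    field_simp
    norm_num
  rw [e1]
  calc (8 : ℝ) ^ N * Real.exp (N * (5 / 2 - 9 / 40 * u)) ≤
        Real.exp (3 * N) * Real.exp (N * (5 / 2 - 9 / 40 * u)) :=
        mul_le_mul_of_nonneg_right (exp3 N) (Real.exp_pos _).le
    _ ≤ Real.exp (N * (10 - u / 30)) := by
        rw [← Real.exp_add]
        apply Real.exp_le_exp.2
        have : (N : ℝ) * (5 / 2 - 9 / 40 * u + 3) ≤ N * (10 - u / 30) :=
          mul_le_mul_of_nonneg_left (by linarith) hN0.le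
        linarith

end tails

section union

variable {κ : Type} [Fintype κ] {p b N : ℕ} {Γ : Gph p b} {ι : V κ →ₗᵢ[ℝ] W b N} {ρ : V κ → ℝ}

theorem LI_of (hι : InvG Γ ι) {l : Fin b} (hl : Loop Γ l) : LI (GG Γ ι) ι l := by
  intro g hg
  refine ⟨isoG hι (up (Γ.hd l) g) (up_G _ hg), isoG_mem hι _ _, fun x => ?_⟩
  have h1 : Γ.tl l = some (Γ.hd l) := hl
  rw [isoG_apply, mt_GR, mt_RR, h1, ex_some]
  unfold up
  rw [if_pos rfl]

theorem LL_of (hι : InvG Γ ι) {l : Fin b} (hl : ¬ Loop Γ l) : LL (GG Γ ι) ι l := by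
  intro g hg
  refine ⟨isoG hι (up (Γ.hd l) g) (up_G _ hg), isoG_mem hι _ _, fun x => ?_⟩
  have h1 : ex (up (Γ.hd l) g) (Γ.tl l) = 1 := by
    unfold Loop at hl
    rcases hw : Γ.tl l with _ | w
    · rfl
    · rw [hw] at hl
      rw [ex_some]
      unfold up
      rw [if_neg]
      intro h
      exact hl (by rw [h])
  rw [isoG_apply, mt_GR, h1, Matrix.transpose_one, Matrix.mul_one]
  unfold up
  rw [if_pos rfl]

theorem BW_tail (hN : 3 ≤ N) (hι : InvG Γ ι) (hρ : GD (GG Γ ι) ρ) (hb : Bdd ρ)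
    (h1 : mu ρ univ = 1) (s : ℝ) (hs : 0 < s)
    (hmom : ∀ θ : V κ, ∫ x, ⟪θ, x⟫_ℝ ^ 2 ∂(mu ρ) ≤ s * ‖θ‖ ^ 2) (u : ℝ) (hu : 0 < u) :
    mu ρ (ι ⁻¹' (BW b N (6 * u * Real.sqrt (N * s))))ᶜ ≤
      ENNReal.ofReal (b * Real.exp (N * (10 - u / 30))) := by
  have hcov : (ι ⁻¹' (BW b N (6 * u * Real.sqrt (N * s))))ᶜ ⊆
      ⋃ l : Fin b, {x | 6 * u * Real.sqrt (N * s) < ‖tm (mt l (ι x))‖} := by
    intro x hx
    by_contra hnot
    apply hx
    intro l
    by_contra hc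
    apply hnot
    rw [mem_iUnion]
    exact ⟨l, not_le.1 hc⟩
  have hX : ∀ l : Fin b, mu ρ {x | 6 * u * Real.sqrt (N * s) < ‖tm (mt l (ι x))‖} ≤
      ENNReal.ofReal (Real.exp (N * (10 - u / 30))) := by
    intro l
    by_cases hl : Loop Γ l
    · exact op_tailI hN (LI_of hι hl) hρ hb h1 s hs hmom u hu
    · exact op_tailM hN (LL_of hι hl) hρ hb h1 s hs hmom u hu
  refine (measure_mono hcov).trans ((measure_iUnion_fintype_le _ _).trans
    ((Finset.sum_le_sum fun l _ => hX l).trans (le_of_eq ?_)))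
  rw [ENNReal.ofReal_mul (Nat.cast_nonneg _), ENNReal.ofReal_natCast]
  simp

end union

end Pool.Agent.W5h90.GI
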