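import Pool.Agent.TH591.TT.Loc
import Pool.Agent.H888R2.KB.F0
import Pool.Agent.H888R2.KB.T3
import Pool.Agent.H888R2.KB.T4
import Pool.Agent.H888R2.KB.N1
import Pool.Agent.H212R2.KLS.G2

/-!
# From local Poincare inequalities to variances of Lipschitz functions and to bounded functions
-/

set_option autoImplicit false

namespace Pool.Agent.W5h90.GI

open MeasureTheory Set Filter
open scoped ENNReal InnerProductSpace Topology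
open Pool.Agent.TH591.TT
open Pool.Agent.H212R2.KLS (mu Bdd)
open Pool.Agent.H888R2.KT (LC St tw untiltq)

/-- Variance bound for `1`-Lipschitz functions -/
theorem coreL : ∃ C : ℝ, 0 < C ∧ ∀ {κ κ' : Type} [Fintype κ] [Fintype κ'] {q : ℕ}
    {G : Set (V κ ≃ₗᵢ[ℝ] V κ)} {A : κ' → (V κ →ₗ[ℝ] V κ)} {e : Fin q → V κ} {κ0 cV : ℝ}
    {ρ : V κ → ℝ}, LD G A e κ0 cV → GD G ρ → Bdd ρ → mu ρ univ = 1 → ∀ s : ℝ, 0 < s →
    (∀ θ : V κ, ∫ x, ⟪θ, x⟫_ℝ ^ 2 ∂(mu ρ) ≤ s * ‖θ‖ ^ 2) → ∀ L : ℝ, 0 ≤ L →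
    ∀ B : Set (V κ), Convex ℝ B → MeasurableSet B → (∀ g ∈ G, ∀ x, g x ∈ B ↔ x ∈ B) →
    (∀ x ∈ B, ∀ w, ∑ k, ⟪w, A k x⟫_ℝ ^ 2 ≤ L * ‖w‖ ^ 2) → ∀ ε : ℝ, 0 ≤ ε → ε ≤ 1 / 2 →
    mu ρ Bᶜ ≤ ENNReal.ofReal (ε ^ 2) → (Fintype.card κ : ℝ) * ε ≤ 1 →
    ∀ f : V κ → ℝ, ContDiff ℝ 1 f → (∀ x, ‖fderiv ℝ f x‖ ≤ 1) →
    ∫ x, f x ^ 2 ∂(mu ρ) - (∫ x, f x ∂(mu ρ)) ^ 2 ≤
      C * ((q + 1) * (4 * L / κ0 + 4 * L / cV + 2 * s)) := by
  obtain ⟨C₄, hC₄, hfourth⟩ := Pool.Agent.H888R2.KB.fourth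
  obtain ⟨C₁, hC₁, huntilt⟩ := untiltq
  refine ⟨9 * C₁ + 8 + 2 * Real.sqrt C₄, by positivity, ?_⟩
  intro κ κ' _ _ q G A e κ0 cV ρ h hρ hb h1 s hs hmom L hL0 B hBc hBm hBi hL ε hε0 hε hAε hcard
    f hf hf1
  have hprob : IsProbabilityMeasure (mu ρ) := ⟨h1⟩
  have hk := h.kpos
  have hc := h.cpos
  have hball := ball_null hρ.meas hb
  obtain ⟨K, hK⟩ : ∃ K : ℝ, K = 4 * L / κ0 + 4 * L / cV + 2 * s := ⟨_, rfl⟩
  have hKs : 2 * s ≤ K := by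
    rw [hK]
    have e1 : 0 ≤ 4 * L / κ0 := by positivity
    have e2 : 0 ≤ 4 * L / cV := by positivity
    linarith
  have hK0 : 0 < K := by linarith
  have hε2 : ε ^ 2 ≤ 1 / 4 := by nlinarith
  have hhalf : 1 / 2 ≤ (mu ρ B).toReal := by
    have h2 : (mu ρ).real Bᶜ ≤ ε ^ 2 := by
      rw [measureReal_def]
      exact ENNReal.toReal_le_of_le_ofReal (by positivity) hAε
    rw [probReal_compl_eq_one_sub hBm] at h2
    rw [← measureReal_def]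
    linarith
  obtain ⟨c, hloc⟩ := local_U huntilt h hρ hb h1 s hs hmom L hL0 B hBc hBm hBi hL K hK hhalf f hf
  have hgrad : ∫ x in B, ‖fderiv ℝ f x‖ ^ 2 ∂(mu ρ) ≤ 1 := by
    have hc1 : Continuous fun x => ‖fderiv ℝ f x‖ ^ 2 :=
      ((hf.continuous_fderiv (by norm_num)).norm).pow 2
    calc ∫ x in B, ‖fderiv ℝ f x‖ ^ 2 ∂(mu ρ) ≤ ∫ x, ‖fderiv ℝ f x‖ ^ 2 ∂(mu ρ) :=
          setIntegral_le_integral (intg (mu ρ) hball _ hc1)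
            (Eventually.of_forall fun x => by positivity)
      _ ≤ ∫ _x, (1 : ℝ) ∂(mu ρ) := by
          refine integral_mono (intg (mu ρ) hball _ hc1) (integrable_const _) fun x => ?_
          exact pow_le_one₀ (norm_nonneg _) (hf1 x)
      _ = 1 := by simp
  obtain ⟨D, hD⟩ : ∃ D : ℝ, D = C₁ * (q + 1) * K := ⟨_, rfl⟩
  have hD0 : 0 ≤ D := by rw [hD]; positivity
  rw [← hD] at hloc
  have hloc' : ∫ x in B, (f x - c) ^ 2 ∂(mu ρ) ≤ D :=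
    hloc.trans (mul_le_of_le_one_right hD0 hgrad)
  have hne : Nonempty κ ∨ IsEmpty κ := (isEmpty_or_nonempty κ).symm
  have hLC : LC ρ := ⟨hρ.nonneg, hρ.meas, hρ.logc, hb, by rw [h1]; exact ENNReal.one_ne_top, by
    intro h0
    rw [h0] at h1
    simp at h1⟩
  -- moments
  obtain ⟨M, hM⟩ : ∃ M : ℝ, M = s * (Fintype.card κ + 1) := ⟨_, rfl⟩
  have hM0 : 0 < M := by rw [hM]; positivity
  have h2M : ∫ x, ‖x‖ ^ 2 ∂(mu ρ) ≤ M := by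
    refine (Pool.Agent.H888R2.KB.T4x.gen s hb h1 hmom).trans ?_
    rw [hM]
    exact mul_le_mul_of_nonneg_left (by linarith) hs.le
  have h4Q : ∫ x, ‖x‖ ^ 4 ∂(mu ρ) ≤ (Real.sqrt C₄ * M) ^ 2 := by
    have h2 := hfourth ρ hLC h1 (Real.sqrt M) (Real.sqrt_pos.2 hM0) (by
      rw [Real.sq_sqrt hM0.le]
      exact h2M)
    refine h2.trans (le_of_eq ?_)
    have h3 : Real.sqrt M ^ 4 = M ^ 2 := by
      have : Real.sqrt M ^ 4 = (Real.sqrt M ^ 2) ^ 2 := by ring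
      rw [this, Real.sq_sqrt hM0.le]
    rw [h3, mul_pow, Real.sq_sqrt hC₄.le]
  have hglue := Pool.Agent.H888R2.KB.glue0 (mu ρ) hball B hBm f hf hf1 c D M (Real.sqrt C₄ * M) ε
    hD0 hM0.le (by positivity) hε0 hε hAε h2M h4Q hloc'
  have hMε : M * ε ≤ 2 * s := by
    have e1 : M * ε = s * (Fintype.card κ * ε + ε) := by rw [hM]; ring
    rw [e1]
    nlinarith
  have hMε2 : M * ε ^ 2 ≤ s := by
    have e1 : M * ε ^ 2 = (M * ε) * ε := by ring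
    rw [e1]
    have e2 : 0 ≤ M * ε := by positivity
    nlinarith
  have hvar : ∫ x, f x ^ 2 ∂(mu ρ) - (∫ x, f x ∂(mu ρ)) ^ 2 ≤ ∫ x, (f x - c) ^ 2 ∂(mu ρ) := by
    have i1 := intg (mu ρ) hball (fun x => f x ^ 2) (by have := hf.continuous; fun_prop)
    have i2 := intg (mu ρ) hball f hf.continuous
    have e1 : ∀ x, (f x - c) ^ 2 = (f x ^ 2 - 2 * c * f x) + c ^ 2 := fun x => by ring
    simp_rw [e1]
    have h3 : Integrable (fun x => 2 * c * f x) (mu ρ) := i2.const_mul _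
    have h4 : Integrable (fun x => f x ^ 2 - 2 * c * f x) (mu ρ) := i1.sub h3
    rw [integral_add h4 (integrable_const _), integral_sub i1 h3, integral_const_mul]
    simp only [integral_const, probReal_univ, one_smul]
    nlinarith [sq_nonneg ((∫ x, f x ∂(mu ρ)) - c)]
  have hq0 : (0 : ℝ) ≤ q := Nat.cast_nonneg q
  have hsC : 0 ≤ Real.sqrt C₄ := Real.sqrt_nonneg _
  rw [← hK]
  have hs2 : 2 * s ≤ (q + 1) * K := by nlinarith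
  have e9 : 8 * M * ε ^ 2 ≤ 8 * ((q + 1) * K) := by
    have : 8 * M * ε ^ 2 = 8 * (M * ε ^ 2) := by ring
    rw [this]
    linarith
  have e10 : 2 * (Real.sqrt C₄ * M) * ε ≤ 2 * Real.sqrt C₄ * ((q + 1) * K) := by
    have : 2 * (Real.sqrt C₄ * M) * ε = 2 * Real.sqrt C₄ * (M * ε) := by ring
    rw [this]
    exact mul_le_mul_of_nonneg_left (hMε.trans hs2) (by positivity)
  calc ∫ x, f x ^ 2 ∂(mu ρ) - (∫ x, f x ∂(mu ρ)) ^ 2 ≤ ∫ x, (f x - c) ^ 2 ∂(mu ρ) := hvar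
    _ ≤ 9 * D + 8 * M * ε ^ 2 + 2 * (Real.sqrt C₄ * M) * ε := hglue
    _ ≤ 9 * D + 8 * ((q + 1) * K) + 2 * Real.sqrt C₄ * ((q + 1) * K) := by linarith
    _ = (9 * C₁ + 8 + 2 * Real.sqrt C₄) * ((q + 1) * K) := by rw [hD]; ring

variable {κ : Type} [Fintype κ] {G : Set (V κ ≃ₗᵢ[ℝ] V κ)}

/-- variance bound for `1`-Lipschitz functions and densities of bounded support -/
def SL (G : Set (V κ ≃ₗᵢ[ℝ] V κ)) (C : ℝ) : Prop :=
  ∀ ρ : V κ → ℝ, GD G ρ → Bdd ρ → mu ρ univ = 1 → ∀ s : ℝ, 0 < s →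
    (∀ θ : V κ, ∫ x, ⟪θ, x⟫_ℝ ^ 2 ∂(mu ρ) ≤ s * ‖θ‖ ^ 2) →
    ∀ f : V κ → ℝ, ContDiff ℝ 1 f → (∀ x, ‖fderiv ℝ f x‖ ≤ 1) →
    ∫ x, f x ^ 2 ∂(mu ρ) - (∫ x, f x ∂(mu ρ)) ^ 2 ≤ C * s

theorem mainc {C : ℝ} (hC : 0 < C) (hcore : SL G C) (ρ : V κ → ℝ) (hρ : GD G ρ)
    (h1 : mu ρ univ = 1) (s : ℝ) (hs : 0 < s)
    (hmom : ∀ θ : V κ, ∫⁻ x, ENNReal.ofReal (⟪θ, x⟫_ℝ ^ 2) ∂(mu ρ) ≤
      ENNReal.ofReal (s * ‖θ‖ ^ 2)) (f : V κ → ℝ) (hf : ContDiff ℝ 1 f) (hfb : ∀ x, |f x| ≤ 1) :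
    ENNReal.ofReal ((∫ x, (f x - ∫ y, f y ∂(mu ρ)) ^ 2 ∂(mu ρ)) ^ 2) ≤
      ENNReal.ofReal (8 * C * s) * ∫⁻ x, ENNReal.ofReal (‖fderiv ℝ f x‖ ^ 2) ∂(mu ρ) := by
  have hprob : IsProbabilityMeasure (mu ρ) := ⟨h1⟩
  by_cases hI : ∫⁻ x, ENNReal.ofReal (‖fderiv ℝ f x‖ ^ 2) ∂(mu ρ) = ⊤
  · rw [hI, ENNReal.mul_top (by
      rw [Ne, ENNReal.ofReal_eq_zero, not_le]
      positivity)]
    exact le_top
  obtain ⟨I, hIdef⟩ : ∃ I : ℝ, I = (∫⁻ x, ENNReal.ofReal (‖fderiv ℝ f x‖ ^ 2) ∂(mu ρ)).toReal :=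
    ⟨_, rfl⟩
  have hI0 : 0 ≤ I := by rw [hIdef]; exact ENNReal.toReal_nonneg
  have hgrad_meas : Continuous fun x => ‖fderiv ℝ f x‖ ^ 2 :=
    ((hf.continuous_fderiv (by norm_num)).norm).pow 2
  have hfL : MemLp f 2 (mu ρ) :=
    MemLp.of_bound hf.continuous.aestronglyMeasurable 1 (Eventually.of_forall fun x => by
      rw [Real.norm_eq_abs]; exact hfb x)
  have hf2 : Integrable (fun x => f x ^ 2) (mu ρ) := hfL.integrable_sq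
  have hf1 : Integrable f (mu ρ) := hfL.integrable (by norm_num)
  have key : ∀ᶠ k : ℕ in atTop,
      (((mu ρ).real {x : V κ | ‖x‖ ≤ k})⁻¹ *
        (∫ x in {x : V κ | ‖x‖ ≤ k}, f x ^ 2 ∂(mu ρ)) -
        (((mu ρ).real {x : V κ | ‖x‖ ≤ k})⁻¹ *
          ∫ x in {x : V κ | ‖x‖ ≤ k}, f x ∂(mu ρ)) ^ 2) ^ 2 ≤
      8 * (C * (s * ((mu ρ).real {x : V κ | ‖x‖ ≤ k})⁻¹)) *
        (((mu ρ).real {x : V κ | ‖x‖ ≤ k})⁻¹ * I) := by
    have hev : ∀ᶠ k : ℕ in atTop, 0 < (mu ρ).real {x : V κ | ‖x‖ ≤ k} :=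
      (H212R2.KLS.g2_mass (mu ρ)).eventually (lt_mem_nhds one_pos)
    filter_upwards [hev] with k hk
    obtain ⟨B, hBdef⟩ : ∃ B : Set (V κ), B = {x | ‖x‖ ≤ k} := ⟨_, rfl⟩
    have hBm : MeasurableSet B := by
      rw [hBdef]
      exact measurableSet_le measurable_norm measurable_const
    have hBc : Convex ℝ B := by
      have : B = Metric.closedBall 0 k := by
        rw [hBdef]
        ext x
        simp
      rw [this]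
      exact convex_closedBall 0 _
    have hBi : ∀ g ∈ G, ∀ x, g x ∈ B ↔ x ∈ B := by
      intro g _ x
      rw [hBdef]
      show ‖g x‖ ≤ k ↔ ‖x‖ ≤ k
      rw [LinearIsometryEquiv.norm_map]
    rw [← hBdef] at hk ⊢
    obtain ⟨M, hM⟩ : ∃ M : ℝ, M = (mu ρ).real B := ⟨_, rfl⟩
    rw [← hM] at hk ⊢
    have hMi : 0 ≤ M⁻¹ := (inv_pos.2 hk).le
    have hd : GD G (fun x => M⁻¹ * B.indicator ρ x) :=
      (hρ.indicator B hBc hBm hBi).smul _ hMi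
    have hb : Bdd (fun x => M⁻¹ * B.indicator ρ x) := by
      refine ⟨k, fun x hx => ?_⟩
      show M⁻¹ * B.indicator ρ x = 0
      rw [indicator_of_notMem, mul_zero]
      rw [hBdef]
      exact not_le.2 hx
    have hmu := H212R2.KLS.g2_mu ρ hρ.nonneg hρ.meas B hBm M⁻¹ hMi
    have hmass : mu (fun x => M⁻¹ * B.indicator ρ x) univ = 1 := by
      rw [hmu, Measure.smul_apply, Measure.restrict_apply_univ, smul_eq_mul]
      have h2 : mu ρ B = ENNReal.ofReal M := by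
        rw [hM, Measure.real, ENNReal.ofReal_toReal (measure_ne_top _ _)]
      rw [h2, ← ENNReal.ofReal_mul hMi, inv_mul_cancel₀ hk.ne', ENNReal.ofReal_one]
    have hlc : LC (fun x => M⁻¹ * B.indicator ρ x) :=
      ⟨hd.nonneg, hd.meas, hd.logc, hb, by rw [hmass]; exact ENNReal.one_ne_top, fun h => by
        rw [h] at hmass; simp at hmass⟩
    have hint : ∀ g : V κ → ℝ, ∫ x, g x ∂(mu (fun x => M⁻¹ * B.indicator ρ x)) =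
        M⁻¹ * ∫ x in B, g x ∂(mu ρ) := by
      intro g
      rw [hmu, integral_smul_measure, ENNReal.toReal_ofReal hMi, smul_eq_mul]
    have hle : ∀ g : V κ → ℝ, Continuous g → (∀ x, 0 ≤ g x) → ∀ a : ℝ, 0 ≤ a →
        ∫⁻ x, ENNReal.ofReal (g x) ∂(mu ρ) ≤ ENNReal.ofReal a → ∫ x in B, g x ∂(mu ρ) ≤ a := by
      intro g hg hg0 a ha hga
      rw [integral_eq_lintegral_of_nonneg_ae (Eventually.of_forall hg0)
        hg.aestronglyMeasurable]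
      apply ENNReal.toReal_le_of_le_ofReal ha
      exact le_trans (setLIntegral_le_lintegral _ _) hga
    have hmom' : ∀ θ : V κ,
        ∫ x, ⟪θ, x⟫_ℝ ^ 2 ∂(mu (fun x => M⁻¹ * B.indicator ρ x)) ≤ (s * M⁻¹) * ‖θ‖ ^ 2 := by
      intro θ
      rw [hint]
      have h2 := hle (fun x => ⟪θ, x⟫_ℝ ^ 2) (by fun_prop) (fun x => sq_nonneg _) (s * ‖θ‖ ^ 2)
        (by positivity) (hmom θ)
      calc M⁻¹ * ∫ x in B, ⟪θ, x⟫_ℝ ^ 2 ∂(mu ρ) ≤ M⁻¹ * (s * ‖θ‖ ^ 2) :=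
            mul_le_mul_of_nonneg_left h2 hMi
        _ = (s * M⁻¹) * ‖θ‖ ^ 2 := by ring
    have h3 := Pool.Agent.H888R2.KB.nash_lip hlc hmass (C * (s * M⁻¹)) (by
      have := inv_pos.2 hk
      positivity) (fun g hg hg1 => hcore _ hd hb hmass (s * M⁻¹)
        (mul_pos hs (inv_pos.2 hk)) hmom' g hg hg1) f hf hfb
    rw [hint, hint, hint] at h3
    refine h3.trans ?_
    have h4 : ∫ x in B, ‖fderiv ℝ f x‖ ^ 2 ∂(mu ρ) ≤ I := by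
      apply hle _ hgrad_meas (fun x => sq_nonneg _) I hI0
      rw [hIdef, ENNReal.ofReal_toReal hI]
    have h5 : 0 ≤ 8 * (C * (s * M⁻¹)) := by positivity
    exact mul_le_mul_of_nonneg_left (mul_le_mul_of_nonneg_left h4 hMi) h5
  have hM1 : Tendsto (fun k : ℕ => ((mu ρ).real {x : V κ | ‖x‖ ≤ k})⁻¹)
      atTop (𝓝 1) := by
    have := (H212R2.KLS.g2_mass (mu ρ)).inv₀ one_ne_zero
    rwa [inv_one] at this
  have hL : Tendsto (fun k : ℕ =>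
      (((mu ρ).real {x : V κ | ‖x‖ ≤ k})⁻¹ *
        (∫ x in {x : V κ | ‖x‖ ≤ k}, f x ^ 2 ∂(mu ρ)) -
        (((mu ρ).real {x : V κ | ‖x‖ ≤ k})⁻¹ *
          ∫ x in {x : V κ | ‖x‖ ≤ k}, f x ∂(mu ρ)) ^ 2) ^ 2)
      atTop (𝓝 ((1 * (∫ x, f x ^ 2 ∂(mu ρ)) - (1 * ∫ x, f x ∂(mu ρ)) ^ 2) ^ 2)) :=
    ((hM1.mul (H212R2.KLS.g2_lim (mu ρ) _ hf2)).sub
      ((hM1.mul (H212R2.KLS.g2_lim (mu ρ) _ hf1)).pow 2)).pow 2
  have hR : Tendsto (fun k : ℕ =>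
        8 * (C * (s * ((mu ρ).real {x : V κ | ‖x‖ ≤ k})⁻¹)) *
        (((mu ρ).real {x : V κ | ‖x‖ ≤ k})⁻¹ * I))
      atTop (𝓝 (8 * (C * (s * 1)) * (1 * I))) :=
    (((hM1.const_mul s).const_mul C).const_mul 8).mul (hM1.mul_const I)
  have hfin := le_of_tendsto_of_tendsto hL hR key
  have hvar : ∫ x, (f x - ∫ y, f y ∂(mu ρ)) ^ 2 ∂(mu ρ) =
      ∫ x, f x ^ 2 ∂(mu ρ) - (∫ x, f x ∂(mu ρ)) ^ 2 := by
    obtain ⟨a, ha⟩ : ∃ a : ℝ, a = ∫ y, f y ∂(mu ρ) := ⟨_, rfl⟩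
    rw [← ha]
    have h2 : ∀ x, (f x - a) ^ 2 = (f x ^ 2 - 2 * a * f x) + a ^ 2 := fun x => by ring
    simp_rw [h2]
    have h3 : Integrable (fun x => 2 * a * f x) (mu ρ) := hf1.const_mul _
    have h4 : Integrable (fun x => f x ^ 2 - 2 * a * f x) (mu ρ) := hf2.sub h3
    rw [integral_add h4 (integrable_const _), integral_sub hf2 h3, integral_const_mul, ← ha]
    simp
    ring
  rw [hvar]
  have h6 : (∫ x, f x ^ 2 ∂(mu ρ) - (∫ x, f x ∂(mu ρ)) ^ 2) ^ 2 ≤ 8 * C * s * I := by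
    have : 8 * (C * (s * 1)) * (1 * I) = 8 * C * s * I := by ring
    rw [this] at hfin
    simpa using hfin
  calc ENNReal.ofReal ((∫ x, f x ^ 2 ∂(mu ρ) - (∫ x, f x ∂(mu ρ)) ^ 2) ^ 2)
      ≤ ENNReal.ofReal (8 * C * s * I) := ENNReal.ofReal_le_ofReal h6
    _ = ENNReal.ofReal (8 * C * s) *
        ∫⁻ x, ENNReal.ofReal (‖fderiv ℝ f x‖ ^ 2) ∂(mu ρ) := by
      rw [ENNReal.ofReal_mul (by positivity), hIdef, ENNReal.ofReal_toReal hI]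

end Pool.Agent.W5h90.GI
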