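import Pool.Agent.W5h90.GI.A5
import Pool.Agent.W5h90.GI.A6

/-!
# The variance bound for densities invariant under the gauge group
-/

set_option autoImplicit false

namespace Pool.Agent.W5h90.GI

open MeasureTheory Set Matrix
open scoped ENNReal InnerProductSpace
open Pool.Agent.TH591.TT
open Pool.Agent.H212R2.KLS (mu Bdd)
open Pool.Agent.H888R2.KC (KI Km ip Km_skew Km_complete Km_parseval)

/-- the factor `(d + 1) Δ (1 + log b / N)²` -/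
noncomputable def facG (d : ℕ) (Δ : ℝ) (b N : ℕ) : ℝ :=
  ((d : ℝ) + 1) * Δ * (1 + Real.log b / N) ^ 2

theorem facG_pos (d : ℕ) {Δ : ℝ} (hΔ : 0 < Δ) (b N : ℕ) : 0 < facG d Δ b N := by
  unfold facG
  have h1 : 0 ≤ Real.log b := Real.log_natCast_nonneg b
  positivity

theorem sq_le_exp (m : ℕ) : (m : ℝ) ^ 2 ≤ Real.exp (2 * m) := by
  have h1 : (m : ℝ) ≤ Real.exp m := by
    have := Real.add_one_le_exp (m : ℝ)
    linarith
  calc (m : ℝ) ^ 2 ≤ (Real.exp m) ^ 2 := pow_le_pow_left₀ (Nat.cast_nonneg m) h1 2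
    _ = Real.exp (2 * m) := by rw [← Real.exp_nat_mul]; norm_num

theorem card_κ {κ : Type} [Fintype κ] {b N : ℕ} (ι : V κ →ₗᵢ[ℝ] W b N) :
    (Fintype.card κ : ℝ) ≤ b * (N : ℝ) ^ 2 := by
  have h := LinearMap.finrank_le_finrank_of_injective (f := ι.toLinearMap) ι.injective
  rw [finrank_euclideanSpace, finrank_euclideanSpace] at h
  have h2 : Fintype.card (Ix b 0 N) = b * N ^ 2 := by
    simp [Ix, sq]
  rw [h2] at h
  exact_mod_cast h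

theorem slG : ∃ C : ℝ, 0 < C ∧ ∀ {κ : Type} [Fintype κ] {p b N : ℕ}, 3 ≤ N → 1 ≤ b →
    ∀ (Γ : Gph p b) (ι : V κ →ₗᵢ[ℝ] W b N), InvG Γ ι → ∀ Δ : ℝ, 1 ≤ Δ →
    (∀ v, ∑ e, (τ Γ e v + σ Γ e v) ≤ Δ) →
    SL (GG Γ ι) (C * facG (Module.finrank ℝ (FX Γ ι)) Δ b N) := by
  obtain ⟨C₀, hC₀, hcore⟩ := coreL
  refine ⟨C₀ * (2592 * 420 ^ 2 + 2), by positivity, ?_⟩
  intro κ _ p b N hN hb1 Γ ι hι Δ hΔ1 hΔ ρ hρ hb h1 s hs hmom f hf hf1
  obtain ⟨κ0, hκ, hLD⟩ := dataG hN hι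
  have hN3 : (3 : ℝ) ≤ N := by exact_mod_cast hN
  have hN0 : (0 : ℝ) < N := by linarith
  have hbb : (1 : ℝ) ≤ b := by exact_mod_cast hb1
  have hb0 : (0 : ℝ) < b := by linarith
  have hlog : 0 ≤ Real.log b := Real.log_nonneg hbb
  obtain ⟨t, ht⟩ : ∃ t : ℝ, t = Real.log b / N := ⟨_, rfl⟩
  have ht0 : 0 ≤ t := by rw [ht]; positivity
  have hNt : N * t = Real.log b := by rw [ht]; field_simp
  obtain ⟨u, hu⟩ : ∃ u : ℝ, u = 420 + 90 * t := ⟨_, rfl⟩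
  have hu0 : 0 < u := by rw [hu]; positivity
  obtain ⟨r, hr⟩ : ∃ r : ℝ, r = 6 * u * Real.sqrt (N * s) := ⟨_, rfl⟩
  have hr2 : r ^ 2 = 36 * u ^ 2 * (N * s) := by
    rw [hr, mul_pow, mul_pow, Real.sq_sqrt (by positivity)]
    ring
  obtain ⟨ε, hε⟩ : ∃ ε : ℝ, ε = Real.exp (-(2 * N)) / b := ⟨_, rfl⟩
  have hε0 : 0 ≤ ε := by rw [hε]; positivity
  have hexp : Real.exp (-(2 * (N:ℝ))) ≤ 1 / 2 := by
    rw [Real.exp_neg, inv_le_comm₀ (Real.exp_pos _) (by norm_num)]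
    have := Real.add_one_le_exp (2 * (N:ℝ))
    linarith
  have hε2 : ε ≤ 1 / 2 := by
    rw [hε, div_le_iff₀ hb0]
    nlinarith
  have hUc : mu ρ (ι ⁻¹' (BW b N r))ᶜ ≤ ENNReal.ofReal (ε ^ 2) := by
    have h2 := BW_tail hN hι hρ hb h1 s hs hmom u hu0
    rw [← hr] at h2
    refine h2.trans (le_of_eq ?_)
    congr 1
    have h3 : (N : ℝ) * (10 - u / 30) =
        -(2 * N) + -(2 * N) + (-Real.log b + (-Real.log b + -Real.log b)) := by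
      rw [hu]
      have : (N : ℝ) * (10 - (420 + 90 * t) / 30) = -(4 * N) - 3 * (N * t) := by ring
      rw [this, hNt]
      ring
    rw [h3, Real.exp_add, Real.exp_add, Real.exp_add, Real.exp_add, Real.exp_neg (Real.log b),
      Real.exp_log hb0, hε]
    field_simp
  have hcard : (Fintype.card κ : ℝ) * ε ≤ 1 := by
    have h2 := card_κ ι
    have h3 : (N : ℝ) ^ 2 * Real.exp (-(2 * N)) ≤ 1 := by
      rw [Real.exp_neg, ← div_eq_mul_inv, div_le_one (Real.exp_pos _)]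
      exact sq_le_exp N
    calc (Fintype.card κ : ℝ) * ε ≤ (b * (N : ℝ) ^ 2) * ε := mul_le_mul_of_nonneg_right h2 hε0
      _ = (N : ℝ) ^ 2 * Real.exp (-(2 * N)) := by rw [hε]; field_simp
      _ ≤ 1 := h3
  have hΔ0 : 0 ≤ Δ := by linarith
  have key := hcore hLD hρ hb h1 s hs hmom (2 * Δ * r ^ 2) (by positivity)
    (ι ⁻¹' (BW b N r)) ((BW_convex r).linear_preimage ι.toLinearMap)
    ((BW_closed r).preimage ι.continuous).measurableSet (BW_inv r) (fun x hx w => by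
      have h2 := BW_L Γ Δ hΔ0 hΔ r (ι x) hx (ι w)
      rw [ι.norm_map] at h2
      refine le_trans (le_of_eq ?_) h2
      refine Finset.sum_congr rfl fun k _ => ?_
      rw [← ι_DG hι _ _ (Km_tp k.2), ι.inner_map_map]) ε hε0 hε2 hUc hcard f hf hf1
  refine key.trans ?_
  obtain ⟨d, hd⟩ : ∃ d : ℝ, d = ((Module.finrank ℝ (FX Γ ι) : ℕ) : ℝ) := ⟨_, rfl⟩
  have hd0 : 0 ≤ d := by rw [hd]; positivity
  unfold facG
  rw [← hd, ← ht]
  have hNk : (N : ℝ) / 3 ≤ κ0 := by linarith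
  have hNc : (N : ℝ) / 6 ≤ ((N : ℝ) - 2) / 2 := by linarith
  have hL0 : 0 ≤ 4 * (2 * Δ * r ^ 2) := by positivity
  have e1 : 4 * (2 * Δ * r ^ 2) / κ0 ≤ 4 * (2 * Δ * r ^ 2) / (N / 3) :=
    div_le_div_of_nonneg_left hL0 (by positivity) hNk
  have e2 : 4 * (2 * Δ * r ^ 2) / (((N : ℝ) - 2) / 2) ≤ 4 * (2 * Δ * r ^ 2) / (N / 6) :=
    div_le_div_of_nonneg_left hL0 (by positivity) hNc
  have e3 : 4 * (2 * Δ * r ^ 2) / (N / 3) + 4 * (2 * Δ * r ^ 2) / (N / 6) =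
      2592 * Δ * u ^ 2 * s := by
    rw [hr2]
    field_simp
    ring
  have hu2 : u ^ 2 ≤ 420 ^ 2 * (1 + t) ^ 2 := by
    rw [← mul_pow]
    refine pow_le_pow_left₀ hu0.le ?_ 2
    rw [hu]
    linarith
  have ht1 : 1 ≤ (1 + t) ^ 2 := one_le_pow₀ (by linarith)
  have e4 : 2592 * Δ * u ^ 2 * s ≤ 2592 * Δ * (420 ^ 2 * (1 + t) ^ 2) * s := by
    have : 0 ≤ 2592 * Δ := by positivity
    exact mul_le_mul_of_nonneg_right (mul_le_mul_of_nonneg_left hu2 this) hs.le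
  have e5 : 2 * s ≤ 2 * (Δ * (1 + t) ^ 2) * s := by
    have : 1 ≤ Δ * (1 + t) ^ 2 := by nlinarith
    nlinarith
  have e6 : 4 * (2 * Δ * r ^ 2) / κ0 + 4 * (2 * Δ * r ^ 2) / (((N : ℝ) - 2) / 2) + 2 * s ≤
      (2592 * 420 ^ 2 + 2) * (Δ * (1 + t) ^ 2) * s := by
    linarith
  calc C₀ * ((d + 1) * (4 * (2 * Δ * r ^ 2) / κ0 +
        4 * (2 * Δ * r ^ 2) / (((N : ℝ) - 2) / 2) + 2 * s))
      ≤ C₀ * ((d + 1) * ((2592 * 420 ^ 2 + 2) * (Δ * (1 + t) ^ 2) * s)) :=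
        mul_le_mul_of_nonneg_left (mul_le_mul_of_nonneg_left e6 (by positivity)) hC₀.le
    _ = C₀ * (2592 * 420 ^ 2 + 2) * ((d + 1) * Δ * (1 + t) ^ 2) * s := by ring

end Pool.Agent.W5h90.GI
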